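import Pool.Agent.H95Z.Vil.SR

/-!
The connecting maps: fullness and traces.
-/

namespace Pool.Agent.H95Z.Vil

open Matrix
open scoped Matrix.Norms.L2Operator ComplexOrder

set_option linter.unusedSectionVars false
set_option linter.unusedSimpArgs false

noncomputable section

theorem exists_vec {N : Type} [Fintype N] [DecidableEq N] (X : Matrix N N ℂ) {κ : ℝ} (hκ : 0 ≤ κ)
    (h : κ < ‖X‖) : ∃ (v : N → ℂ) (c : ℝ), star v ⬝ᵥ v = 1 ∧ κ ^ 2 < c ∧
      star v ⬝ᵥ (star X * X) *ᵥ v = c := by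
  rw [cstar_norm_def] at h
  obtain ⟨x, hx1, hx2⟩ := ContinuousLinearMap.exists_lt_apply_of_lt_opNorm _ h
  have hx0 : 0 < ‖x‖ := by
    rw [norm_pos_iff]
    rintro rfl
    rw [map_zero, norm_zero] at hx2
    exact absurd hx2 (not_lt.2 hκ)
  let v : EuclideanSpace ℂ N := ((‖x‖⁻¹ : ℝ) : ℂ) • x
  have hv : ‖v‖ = 1 := by
    rw [norm_smul, Complex.norm_real, norm_inv, norm_norm, inv_mul_cancel₀ hx0.ne']
  have hTv : κ < ‖toEuclideanCLM (n := N) (𝕜 := ℂ) X v‖ := by
    rw [map_smul, norm_smul, Complex.norm_real, norm_inv, norm_norm]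
    refine hx2.trans_le (le_mul_of_one_le_left (norm_nonneg _) ?_)
    exact one_le_inv₀ hx0 |>.2 hx1.le
  have key : ∀ u : EuclideanSpace ℂ N, star u.ofLp ⬝ᵥ u.ofLp = ((‖u‖ ^ 2 : ℝ) : ℂ) := by
    intro u
    rw [dotProduct_comm, ← EuclideanSpace.inner_eq_star_dotProduct, inner_self_eq_norm_sq_to_K]
    simp
  refine ⟨v.ofLp, ‖toEuclideanCLM (n := N) (𝕜 := ℂ) X v‖ ^ 2, ?_, ?_, ?_⟩
  · rw [key, hv]; simp
  · exact pow_lt_pow_left₀ hTv hκ two_ne_zero
  · rw [← key, ofLp_toEuclideanCLM, ← mulVec_mulVec, dotProduct_mulVec, star_mulVec,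
      star_eq_conjTranspose]

theorem block_form {N B : Type} [Fintype N] [DecidableEq N] [Fintype B] [DecidableEq B]
    (c : B → Matrix N N ℂ) (β : B) (v : N → ℂ) :
    star (fun z : N × B => if z.2 = β then v z.1 else 0) ⬝ᵥ
      blockDiagonal c *ᵥ (fun z : N × B => if z.2 = β then v z.1 else 0) =
      star v ⬝ᵥ c β *ᵥ v := by
  simp only [dotProduct, mulVec, Fintype.sum_prod_type, blockDiagonal_apply, Pi.star_apply]
  refine Finset.sum_congr rfl fun s _ => ?_
  rw [Finset.sum_eq_single β]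
  · simp only [if_true]
    congr 1
    refine Finset.sum_congr rfl fun t _ => ?_
    rw [Finset.sum_eq_single β]
    · simp
    · intro b _ hb; simp [hb]
    · intro h; exact absurd (Finset.mem_univ _) h
  · intro b _ hb; simp [hb]
  · intro h; exact absurd (Finset.mem_univ _) h

theorem trace_bound {A : Type} [CStarAlgebra A] (τ : A →ₗ[ℂ] ℂ) (hτ : ∀ x, 0 ≤ τ (star x * x))
    {z p : A} (hz : IsSelfAdjoint z) (hp : IsSelfAdjoint p) (hpp : p * p = p) :
    ‖τ (p * z * p)‖ ≤ ‖z‖ * ‖τ p‖ := by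
  let _ := CStarAlgebra.spectralOrder A
  have _ := CStarAlgebra.spectralOrderedRing A
  have hmono : ∀ a b : A, a ≤ b → τ a ≤ τ b := by
    intro a b hab
    obtain ⟨c, hc⟩ := CStarAlgebra.nonneg_iff_eq_star_mul_self.1 (sub_nonneg.2 hab)
    have := hτ c
    rwa [← hc, map_sub, sub_nonneg] at this
  have e : star p * algebraMap ℝ A ‖z‖ * p = (‖z‖ : ℂ) • p := by
    rw [hp.star_eq, Algebra.algebraMap_eq_smul_one, mul_smul_comm, mul_one, smul_mul_assoc, hpp]
    exact (Complex.coe_smul _ _).symm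
  have h1 := hmono _ _ (star_left_conjugate_le_conjugate hz.le_algebraMap_norm_self p)
  have h2 := hmono _ _ (star_left_conjugate_le_conjugate hz.neg_algebraMap_norm_le_self p)
  rw [mul_neg, neg_mul, map_neg] at h2
  rw [e, map_smul, hp.star_eq] at h1 h2
  have h3 : 0 ≤ τ p := by
    have := hτ p
    rwa [hp.star_eq, hpp] at this
  obtain ⟨h3a, h3b⟩ := Complex.nonneg_iff.1 h3
  obtain ⟨h1a, h1b⟩ := Complex.le_def.1 h1
  obtain ⟨h2a, -⟩ := Complex.le_def.1 h2
  simp only [smul_eq_mul, Complex.mul_re, Complex.ofReal_re, Complex.ofReal_im, zero_mul, sub_zero,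
    Complex.mul_im, add_zero, Complex.neg_re, ← h3b, mul_zero] at h1a h1b h2a
  have h4 : ‖τ (p * z * p)‖ = |(τ (p * z * p)).re| := (Complex.abs_re_eq_norm.2 h1b).symm
  have h5 : (τ p).re ≤ ‖τ p‖ := Complex.re_le_norm _
  rw [h4, abs_le]
  have h6 := mul_le_mul_of_nonneg_left h5 (norm_nonneg z)
  constructor <;> linarith

namespace Par

open Stage

variable {S : Stage} (P : Par S)

/-- a large point evaluation makes the image full in a uniform way -/
theorem full_step (b : S.Al) (x : P.F) {κ : ℝ} (hκ : 0 ≤ κ) (h : κ < ‖ev (P.f x) b‖) :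
    ∃ (ι : Type) (_ : Fintype ι) (u : ι → P.next.Al) (c : ℝ), κ ^ 2 < c ∧
      ∑ i, star (u i) * u i = 1 ∧ ∑ i, star (u i) * (star (P.φ b) * P.φ b) * u i = (c : ℂ) • 1 := by
  obtain ⟨v, c, hv, hc, hvc⟩ := exists_vec _ hκ h
  have hN : Nonempty S.N := by
    by_contra hne
    rw [not_nonempty_iff] at hne
    simp [dotProduct] at hv
  obtain ⟨s0⟩ := hN
  let β : P.B := .inr (.inl (x, (s0, none)))
  let w : P.next.N → ℂ := fun z : S.N × P.B => if z.2 = β then v z.1 else 0
  have hw : ∀ t, w t ≠ 0 → P.next.lab t = none := by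
    rintro ⟨s, b⟩ ht
    have : b = β := by
      by_contra hb
      exact ht (if_neg hb)
    subst this
    rfl
  refine ⟨P.next.N × P.next.Co, inferInstance, fun i => colE w hw i.1 i.2, c, hc, ?_, ?_⟩
  · rw [Fintype.sum_prod_type, ← sum_E]
    refine Finset.sum_congr rfl fun s _ => ?_
    have := sum_colE_conj w hw 1 1 (fun y => by
      rw [map_one, ← blockDiagonal_one]
      exact (block_form 1 β v).trans (by simpa using hv)) s
    simpa using this
  · rw [Fintype.sum_prod_type, ← sum_E, Finset.smul_sum]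
    refine Finset.sum_congr rfl fun s _ => ?_
    refine sum_colE_conj w hw _ _ (fun y => ?_) s
    rw [← map_star, ← map_mul, φ_apply, ev_Ψ, BD_apply]
    refine (block_form _ β v).trans ?_
    rw [← hvc, ← map_star, ← map_mul]
    rfl

/-- the value of a trace on the image is almost determined -/
theorem trace_step (b : S.Al) (hb : IsSelfAdjoint b) {t : P.next.N} (ht : P.next.lab t = none)
    (τ : P.next.Al →ₗ[ℂ] ℂ) (hτ : ∀ x, 0 ≤ τ (star x * x)) (h : ∀ x y, τ (x * y) = τ (y * x))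
    (h1 : τ 1 = 1) :
    ‖τ (P.φ b) - P.m * (ev P.y0 b).trace * (Fintype.card P.next.N : ℂ)⁻¹‖ ≤
      ‖b‖ * (((P.L + 1 + Fintype.card (P.F × (S.N × S.Co)) : ℕ) : ℝ) /
        ((P.L + 1 + Fintype.card (P.F × (S.N × S.Co)) + P.m : ℕ) : ℝ)) := by
  let χ : P.Bc → S.Mt := Sum.elim (fun _ => 1) fun _ => 0
  let χ' : P.Bc → S.Mt := Sum.elim (fun _ => 0) fun _ => ev P.y0 b
  let p : P.next.Al := P.Ψ (1, χ)
  have hp : IsSelfAdjoint p := by
    rw [IsSelfAdjoint, ← map_star]
    congr 1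
    refine Prod.ext (star_one _) ?_
    funext β; cases β <;> simp [χ]
  have hpp : p * p = p := by
    rw [← map_mul]
    congr 1
    refine Prod.ext (mul_one _) ?_
    funext β; cases β <;> simp [χ]
  have hdec : P.φ b = p * P.φ b * p + P.Ψ (0, χ') := by
    rw [φ_apply, ← map_mul, ← map_mul, ← map_add]
    congr 1
    refine Prod.ext (by simp) ?_
    funext β; cases β <;> simp [χ, χ', pt]
  have e1 : τ (P.Ψ (0, χ')) = P.m * (ev P.y0 b).trace * (Fintype.card P.next.N : ℂ)⁻¹ := by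
    rw [trace_const τ h h1 ht _ (blockDiagonal (Sum.elim (fun _ => 0) χ'))]
    · rw [trace_blockDiagonal]
      simp [Fintype.sum_sum_type, χ']
    · intro y
      rw [ev_Ψ, BD_apply]
      congr 1
  have e2 : τ p = ((P.L + 1 + Fintype.card (P.F × (S.N × S.Co)) : ℕ) : ℂ) * Fintype.card S.N *
      (Fintype.card P.next.N : ℂ)⁻¹ := by
    rw [trace_const τ h h1 ht _ (blockDiagonal (Sum.elim (fun _ => 1) χ))]
    · rw [trace_blockDiagonal]
      simp only [Fintype.sum_sum_type, χ, Sum.elim_inl, Sum.elim_inr, trace_one, trace_zero,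
        Finset.sum_const, Finset.card_univ, Fintype.card_fin, nsmul_eq_mul]
      push_cast
      ring
    · intro y
      rw [ev_Ψ, BD_apply]
      congr 1
  have e3 : Fintype.card P.next.N = Fintype.card S.N *
      (P.L + 1 + Fintype.card (P.F × (S.N × S.Co)) + P.m) := by
    change Fintype.card (S.N × P.B) = _
    rw [Fintype.card_prod, Fintype.card_sum, Fintype.card_sum, Fintype.card_fin, Fintype.card_fin,
      add_assoc (P.L + 1)]
  have hN : (Fintype.card S.N : ℂ) ≠ 0 := by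
    have : Nonempty S.N := ⟨t.1⟩
    exact_mod_cast Fintype.card_ne_zero
  have e4 : ‖τ p‖ = ((P.L + 1 + Fintype.card (P.F × (S.N × S.Co)) : ℕ) : ℝ) /
      ((P.L + 1 + Fintype.card (P.F × (S.N × S.Co)) + P.m : ℕ) : ℝ) := by
    rw [e2, e3, Nat.cast_mul, mul_inv, mul_assoc, ← mul_assoc (Fintype.card S.N : ℂ),
      mul_inv_cancel₀ hN, one_mul, norm_mul, norm_inv, Complex.norm_natCast, Complex.norm_natCast,
      div_eq_mul_inv]
  have e5 : τ (P.φ b) = τ (p * P.φ b * p) + τ (P.Ψ (0, χ')) := by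
    rw [← map_add, ← hdec]
  rw [e5, e1, add_sub_cancel_right, ← e4]
  refine (trace_bound τ hτ (hb.map P.φ) hp hpp).trans ?_
  exact mul_le_mul_of_nonneg_right (NonUnitalStarAlgHom.norm_apply_le P.φ b) (norm_nonneg _)

end Par

/-- every building block with a non-empty index set has a tracial state -/
theorem Stage.exists_trace (S : Stage) (hN : Nonempty S.N) : ∃ τ : S.Al →ₗ[ℂ] ℂ, τ 1 = 1 ∧
    (∀ x, 0 ≤ τ (star x * x)) ∧ (∀ x y, τ (x * y) = τ (y * x)) ∧ ∀ x, ‖τ x‖ ≤ ‖x‖ := by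
  obtain ⟨y⟩ : Nonempty S.Y := inferInstance
  have hc : (Fintype.card S.N : ℂ) ≠ 0 := by exact_mod_cast Fintype.card_ne_zero
  let τ : S.Al →ₗ[ℂ] ℂ := (Fintype.card S.N : ℂ)⁻¹ •
    ((traceLinearMap S.N ℂ ℂ).comp (Stage.ev y).toAlgHom.toLinearMap)
  have hτ : ∀ x, τ x = (Fintype.card S.N : ℂ)⁻¹ * (Stage.ev y x).trace := fun x => rfl
  refine ⟨τ, ?_, ?_, ?_, ?_⟩
  · rw [hτ, map_one, trace_one, inv_mul_cancel₀ hc]
  · intro x
    rw [hτ, map_mul, map_star, star_eq_conjTranspose]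
    refine mul_nonneg (inv_nonneg.2 (Nat.cast_nonneg _)) ?_
    exact (posSemidef_conjTranspose_mul_self _).trace_nonneg
  · intro x z
    rw [hτ, hτ, map_mul, map_mul, trace_mul_comm]
  · intro x
    rw [hτ, norm_mul, norm_inv, Complex.norm_natCast]
    have h1 : ∀ s, ‖Stage.ev y x s s‖ ≤ ‖x‖ := by
      intro s
      refine le_trans ?_ (Stage.norm_ev_le y x)
      have h2 := l2_opNorm_mulVec (Stage.ev y x) (EuclideanSpace.single s (1 : ℂ))
      rw [PiLp.norm_single, norm_one, mul_one] at h2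
      refine le_trans ?_ h2
      refine le_trans (le_of_eq ?_) (PiLp.norm_apply_le _ s)
      simp
    have h3 : ‖(Stage.ev y x).trace‖ ≤ Fintype.card S.N * ‖x‖ := by
      refine (norm_sum_le _ _).trans ?_
      refine (Finset.sum_le_sum fun s _ => h1 s).trans ?_
      simp
    have h4 : (0 : ℝ) < Fintype.card S.N := by exact_mod_cast Fintype.card_pos
    rw [inv_mul_le_iff₀ h4]
    exact h3

end

end Pool.Agent.H95Z.Vil
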