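import Pool.Agent.H95Z.Vil.Defs
import Pool.Agent.H95Z.Vil.StepC

/-!
Properties of inductive limits.
-/

namespace Pool.Agent.H95Z.Vil

open Filter Topology
open scoped ComplexOrder ENNReal NNReal

set_option linter.unusedSectionVars false
set_option linter.unusedSimpArgs false

noncomputable section

section lim

variable {A : ℕ → Type} [∀ i, CStarAlgebra (A i)] {B : Type} [CStarAlgebra B]
  (ψ : ∀ i, A i →⋆ₐ[ℂ] B) (hd : ∀ (b : B) (ε : ℝ), 0 < ε → ∃ i a, ‖b - ψ i a‖ < ε)

include hd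

theorem lim_ind {s : Set B} (hs : IsClosed s) (h : ∀ i a, ψ i a ∈ s) (b : B) : b ∈ s := by
  rw [← hs.closure_eq, Metric.mem_closure_iff]
  intro ε hε
  obtain ⟨i, a, ha⟩ := hd b ε hε
  exact ⟨ψ i a, h i a, by rwa [dist_eq_norm]⟩

theorem lim_sr1 (h : ∀ i a, ψ i a ∈ CU B) : StableRankOne B :=
  fun b => lim_ind ψ hd (s := CU B) isClosed_closure h b

theorem lim_simple [Nontrivial B] (hψ : ∀ i a, ‖ψ i a‖ = ‖a‖)
    (h : ∀ i (a : A i) (κ : ℝ), 0 ≤ κ → κ < ‖a‖ → ∃ (ι : Type) (_ : Fintype ι) (u : ι → B) (c : ℝ),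
      κ ^ 2 < c ∧ ∑ k, star (u k) * u k = 1 ∧
      ∑ k, star (u k) * (star (ψ i a) * ψ i a) * u k = (c : ℂ) • 1) : IsSimpleRing B := by
  let _ := CStarAlgebra.spectralOrder B
  have _ := CStarAlgebra.spectralOrderedRing B
  refine IsSimpleRing.of_eq_bot_or_eq_top fun I => ?_
  by_cases hI : I = ⊥
  · exact Or.inl hI
  right
  obtain ⟨x0, hx0, hx0'⟩ : ∃ x ∈ I, x ≠ 0 := by
    by_contra hcon
    push Not at hcon
    exact hI (TwoSidedIdeal.ext fun x => ⟨fun hx => by simpa using hcon x hx,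
      fun hx => by simp only [TwoSidedIdeal.mem_bot] at hx; rw [hx]; exact I.zero_mem⟩)
  have hn : ‖x0‖ ≠ 0 := norm_ne_zero_iff.2 hx0'
  let x : B := algebraMap ℂ B ((‖x0‖⁻¹ : ℝ) : ℂ) * x0
  have hxI : x ∈ I := I.mul_mem_left _ _ hx0
  have hx : ‖x‖ = 1 := by
    rw [show x = ((‖x0‖⁻¹ : ℝ) : ℂ) • x0 from (Algebra.smul_def _ _).symm, norm_smul,
      Complex.norm_real, norm_inv, norm_norm, inv_mul_cancel₀ hn]
  obtain ⟨i, a, ha⟩ := hd x (1 / 10) (by norm_num)
  have h1 : 9 / 10 < ‖ψ i a‖ := by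
    have := norm_sub_norm_le x (ψ i a)
    linarith
  have h2 : ‖ψ i a‖ < 11 / 10 := by
    have := norm_sub_norm_le (ψ i a) x
    rw [norm_sub_rev] at this
    linarith
  obtain ⟨ι, _, u, c, hc, hu1, hu2⟩ := h i a (9 / 10) (by norm_num) (by rwa [← hψ])
  set y := ψ i a with hy
  let z := star y * y - star x * x
  have hz : IsSelfAdjoint z := (IsSelfAdjoint.star_mul_self y).sub (IsSelfAdjoint.star_mul_self x)
  have hzn : ‖z‖ ≤ 21 / 100 := by
    have e : z = -(star (x - y) * y) - star x * (x - y) := by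
      simp only [z, star_sub]; noncomm_ring
    rw [e]
    refine (norm_sub_le _ _).trans ?_
    rw [norm_neg]
    have a1 := norm_mul_le (star (x - y)) y
    have a2 := norm_mul_le (star x) (x - y)
    rw [norm_star] at a1 a2
    rw [hx] at a2
    have a3 : ‖x - y‖ * ‖y‖ ≤ 1 / 10 * (11 / 10) :=
      mul_le_mul ha.le h2.le (norm_nonneg _) (by norm_num)
    linarith
  let g := ∑ k, star (u k) * (star x * x) * u k
  have hgI : g ∈ I := I.finsetSum_mem _ _ fun k _ =>
    I.mul_mem_right _ _ (I.mul_mem_left _ _ (I.mul_mem_left _ _ hxI))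
  have h3 : ∑ k, star (u k) * z * u k ≤ ‖z‖ • (1 : B) := by
    rw [← hu1, Finset.smul_sum]
    exact Finset.sum_le_sum fun k _ => CStarAlgebra.star_left_conjugate_le_norm_smul hz
  have h4 : ∑ k, star (u k) * z * u k = c • (1 : B) - g := by
    simp only [z, mul_sub, sub_mul, Finset.sum_sub_distrib, hu2, g, Complex.coe_smul]
  have h5 : (c - ‖z‖) • (1 : B) ≤ g := by
    rw [h4] at h3
    rw [sub_smul]
    exact sub_le_comm.1 h3
  have h6 : 0 < c - ‖z‖ := by nlinarith
  have h7 : IsStrictlyPositive ((c - ‖z‖) • (1 : B)) := isStrictlyPositive_one.smul h6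
  have h8 : IsUnit g := (h7.of_le h5).isUnit
  obtain ⟨g', hg'⟩ := h8.exists_left_inv
  exact (I.one_mem_iff).1 (hg' ▸ I.mul_mem_left g' g hgI)

theorem lim_trace_ex (hψ : ∀ i a, ‖ψ i a‖ = ‖a‖) (hup : ∀ i a, ∃ a', ψ (i + 1) a' = ψ i a)
    (h : ∀ i, ∃ τ : A i →ₗ[ℂ] ℂ, τ 1 = 1 ∧ (∀ x, 0 ≤ τ (star x * x)) ∧
      (∀ x y, τ (x * y) = τ (y * x)) ∧ ∀ x, ‖τ x‖ ≤ ‖x‖) : (tracialStates B).Nonempty := by
  let K : ℕ → Set (WeakDual ℂ B) := fun i => (WeakDual.toStrongDual ⁻¹' Metric.closedBall 0 1) ∩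
    ({τ | τ 1 = 1} ∩ (⋂ a : A i, {τ | 0 ≤ τ (star (ψ i a) * ψ i a)}) ∩
      ⋂ a : A i, ⋂ b : A i, {τ | τ (ψ i a * ψ i b) = τ (ψ i b * ψ i a)})
  have hcl : ∀ i, IsClosed ({τ : WeakDual ℂ B | τ 1 = 1} ∩
      (⋂ a : A i, {τ | 0 ≤ τ (star (ψ i a) * ψ i a)}) ∩
      ⋂ a : A i, ⋂ b : A i, {τ | τ (ψ i a * ψ i b) = τ (ψ i b * ψ i a)}) := by
    intro i
    refine ((isClosed_eq (WeakDual.eval_continuous _) continuous_const).inter ?_).inter ?_
    · exact isClosed_iInter fun a => isClosed_le continuous_const (WeakDual.eval_continuous _)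
    · exact isClosed_iInter fun a => isClosed_iInter fun b =>
        isClosed_eq (WeakDual.eval_continuous _) (WeakDual.eval_continuous _)
  have hne : ∀ i, (K i).Nonempty := by
    intro i
    obtain ⟨τ, h1, h2, h3, h4⟩ := h i
    let L : A i →ₗ[ℂ] B := (ψ i).toAlgHom.toLinearMap
    have hL : Function.Injective L := by
      rw [injective_iff_map_eq_zero]
      intro a ha
      have : ‖ψ i a‖ = 0 := norm_eq_zero.2 ha
      rwa [hψ, norm_eq_zero] at this
    let e := LinearEquiv.ofInjective L hL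
    let f : StrongDual ℂ (LinearMap.range L) := (τ.comp e.symm.toLinearMap).mkContinuous 1
      (fun x => by
        obtain ⟨a, rfl⟩ := e.surjective x
        rw [one_mul]
        simp only [LinearMap.comp_apply, LinearEquiv.coe_coe, LinearEquiv.symm_apply_apply]
        exact (h4 a).trans (hψ i a).symm.le)
    have hf : ‖f‖ ≤ 1 := LinearMap.mkContinuous_norm_le _ zero_le_one _
    obtain ⟨g, hg1, hg2⟩ := exists_extension_norm_eq (LinearMap.range L) f
    have hg : ∀ a, g (ψ i a) = τ a := by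
      intro a
      have := hg1 (e a)
      simp only [f, LinearMap.mkContinuous_apply, LinearMap.comp_apply, LinearEquiv.coe_coe,
        LinearEquiv.symm_apply_apply] at this
      exact this
    refine ⟨StrongDual.toWeakDual g, ?_, ⟨?_, ?_⟩, ?_⟩
    · simp only [Set.mem_preimage, mem_closedBall_zero_iff]
      exact hg2.trans_le hf
    · change g 1 = 1
      rw [← map_one (ψ i), hg, h1]
    · refine Set.mem_iInter.2 fun a => ?_
      change 0 ≤ g _
      rw [← map_star, ← map_mul, hg]; exact h2 a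
    · refine Set.mem_iInter.2 fun a => Set.mem_iInter.2 fun b => ?_
      change g _ = g _
      rw [← map_mul, ← map_mul, hg, hg, h3]
  have hdec : ∀ i, K (i + 1) ⊆ K i := by
    rintro i τ ⟨h0, ⟨h1, h2⟩, h3⟩
    refine ⟨h0, ⟨h1, Set.mem_iInter.2 fun a => ?_⟩,
      Set.mem_iInter.2 fun a => Set.mem_iInter.2 fun b => ?_⟩
    · obtain ⟨a', ha'⟩ := hup i a
      rw [← ha']
      exact Set.mem_iInter.1 h2 a'
    · obtain ⟨a', ha'⟩ := hup i a
      obtain ⟨b', hb'⟩ := hup i b
      rw [← ha', ← hb']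
      exact Set.mem_iInter.1 (Set.mem_iInter.1 h3 a') b'
  obtain ⟨τ, hτ⟩ := IsCompact.nonempty_iInter_of_sequence_nonempty_isCompact_isClosed K hdec hne
    ((WeakDual.isCompact_closedBall 0 1).inter_right (hcl 0))
    (fun i => (WeakDual.isClosed_closedBall 0 1).inter (hcl i))
  rw [Set.mem_iInter] at hτ
  have hc : Continuous τ := map_continuous τ
  have hup' : ∀ i j, i ≤ j → ∀ a, ∃ a', ψ j a' = ψ i a := by
    intro i j hij a
    induction j, hij using Nat.le_induction with
    | base => exact ⟨a, rfl⟩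
    | succ j _ ih =>
      obtain ⟨a', ha'⟩ := ih
      obtain ⟨a'', ha''⟩ := hup j a'
      exact ⟨a'', ha''.trans ha'⟩
  refine ⟨τ, (hτ 0).2.1.1, fun x => ?_, fun x y => ?_⟩
  · exact lim_ind ψ hd (s := {x | 0 ≤ τ (star x * x)})
      (isClosed_le continuous_const (hc.comp (by fun_prop)))
      (fun i a => Set.mem_iInter.1 (hτ i).2.1.2 a) x
  · refine lim_ind ψ hd (s := {x | τ (x * y) = τ (y * x)})
      (isClosed_eq (hc.comp (by fun_prop)) (hc.comp (by fun_prop))) (fun i a => ?_) x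
    refine lim_ind ψ hd (s := {y | τ (ψ i a * y) = τ (y * ψ i a)})
      (isClosed_eq (hc.comp (by fun_prop)) (hc.comp (by fun_prop))) (fun j b => ?_) y
    obtain ⟨a', ha'⟩ := hup' i (max i j) (le_max_left _ _) a
    obtain ⟨b', hb'⟩ := hup' j (max i j) (le_max_right _ _) b
    change τ _ = τ _
    rw [← ha', ← hb']
    exact Set.mem_iInter.1 (Set.mem_iInter.1 (hτ (max i j)).2.2 a') b'

theorem lim_trace_uniq (h : ∀ i (a : A i), IsSelfAdjoint a → ∀ η : ℝ, 0 < η → ∃ c : ℂ,
    ∀ τ ∈ tracialStates B, ‖τ (ψ i a) - c‖ ≤ η) : (tracialStates B).Subsingleton := by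
  intro τ hτ τ' hτ'
  have h1 : ∀ i (a : A i), IsSelfAdjoint a → τ (ψ i a) = τ' (ψ i a) := by
    intro i a ha
    refine eq_of_forall_dist_le fun η hη => ?_
    obtain ⟨c, hc⟩ := h i a ha (η / 2) (by positivity)
    have := dist_triangle_right (τ (ψ i a)) (τ' (ψ i a)) c
    rw [dist_eq_norm _ c, dist_eq_norm _ c] at this
    linarith [hc τ hτ, hc τ' hτ']
  refine DFunLike.ext _ _ fun b => ?_
  refine lim_ind ψ hd (s := {b | τ b = τ' b})
    (isClosed_eq (map_continuous τ) (map_continuous τ')) (fun i a => ?_) b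
  change τ _ = τ' _
  rw [← realPart_add_I_smul_imaginaryPart a]
  simp only [map_add, map_smul]
  rw [h1 i _ (realPart a).2, h1 i _ (imaginaryPart a).2]

end lim

theorem trace_faithful {B : Type} [CStarAlgebra B] [IsSimpleRing B] {τ : WeakDual ℂ B}
    (hτ : τ ∈ tracialStates B) {x : B} (hx : τ (star x * x) = 0) : x = 0 := by
  let _ := CStarAlgebra.spectralOrder B
  have _ := CStarAlgebra.spectralOrderedRing B
  obtain ⟨h1, h2, h3⟩ := hτ
  have hmono : ∀ a b : B, a ≤ b → τ a ≤ τ b := by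
    intro a b hab
    obtain ⟨c, hc⟩ := CStarAlgebra.nonneg_iff_eq_star_mul_self.1 (sub_nonneg.2 hab)
    have := h2 c
    rwa [← hc, map_sub, sub_nonneg] at this
  have hleft : ∀ a y : B, τ (star y * y) = 0 → τ (star (a * y) * (a * y)) = 0 := by
    intro a y hy
    refine le_antisymm ?_ (h2 _)
    have := hmono _ _ (CStarAlgebra.star_left_conjugate_le_norm_smul (a := y)
      (IsSelfAdjoint.star_mul_self a))
    rw [← Complex.coe_smul, map_smul, hy, smul_zero] at this
    simpa only [star_mul, mul_assoc] using this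
  let I : TwoSidedIdeal B := TwoSidedIdeal.mk' {y | τ (star y * y) = 0} (by simp)
    (fun {a b} ha hb => by
      have e : star (a + b) * (a + b) + star (a - b) * (a - b) =
          star a * a + star a * a + star b * b + star b * b := by
        simp only [star_add, star_sub]; noncomm_ring
      have e' := congrArg τ e
      have ha' : τ (star a * a) = 0 := ha
      have hb' : τ (star b * b) = 0 := hb
      simp only [map_add, ha', hb', add_zero] at e'
      exact ((add_eq_zero_iff_of_nonneg (h2 _) (h2 _)).1 e').1)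
    (fun {a} ha => by simpa using ha)
    (fun {a b} hb => hleft a b hb)
    (fun {a b} ha => by
      have ha' : τ (star (star a) * star a) = 0 := by rw [h3, star_star]; exact ha
      have := hleft (star b) (star a) ha'
      change τ _ = 0
      rw [h3]
      simpa only [star_mul, star_star] using this)
  have hI : I = ⊥ := by
    rcases eq_bot_or_eq_top I with h | h
    · exact h
    · have : (1 : B) ∈ I := h ▸ TwoSidedIdeal.mem_top _
      rw [TwoSidedIdeal.mem_mk'] at this
      have h4 : τ (star 1 * 1) = 0 := this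
      rw [star_one, one_mul, h1] at h4
      exact absurd h4 one_ne_zero
  have : x ∈ I := by rw [TwoSidedIdeal.mem_mk']; exact hx
  rwa [hI, TwoSidedIdeal.mem_bot] at this

theorem stablyFinite_of_trace {B : Type} [CStarAlgebra B] [IsSimpleRing B] {τ : WeakDual ℂ B}
    (hτ : τ ∈ tracialStates B) : StablyFinite B := by
  intro n v hv
  let r := 1 - v * star v
  have hr : star r * r = r := by
    simp only [r, star_sub, star_one, star_mul, star_star, mul_sub, sub_mul, one_mul, mul_one]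
    rw [mul_assoc v, ← mul_assoc (star v), hv, one_mul]
    abel
  have h1 : ∑ i, τ ((v * star v) i i) = ∑ i, τ ((star v * v) i i) := by
    simp only [Matrix.mul_apply, Matrix.star_apply, map_sum]
    rw [Finset.sum_comm]
    exact Finset.sum_congr rfl fun i _ => Finset.sum_congr rfl fun k _ => hτ.2.2 _ _
  have h2 : ∑ i, τ ((star r * r) i i) = 0 := by
    rw [hr]
    simp only [r, Matrix.sub_apply, map_sub, Finset.sum_sub_distrib, h1, hv, sub_self]
  simp only [Matrix.mul_apply, Matrix.star_apply, map_sum] at h2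
  have h3 : ∀ i k, τ (star (r k i) * r k i) = 0 := by
    intro i k
    have a1 := (Finset.sum_eq_zero_iff_of_nonneg fun i _ =>
      Finset.sum_nonneg fun k _ => hτ.2.1 (r k i)).1 h2 i (Finset.mem_univ _)
    exact (Finset.sum_eq_zero_iff_of_nonneg fun k _ => hτ.2.1 (r k i)).1 a1 k (Finset.mem_univ _)
  have h4 : r = 0 := by
    ext k i
    exact trace_faithful hτ (h3 i k)
  exact (sub_eq_zero.1 h4).symm

theorem IsQuasitrace.wqt {B : Type} [CStarAlgebra B] {τ : B → ℂ} (h : IsQuasitrace τ) : WQT τ := by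
  have key : ∀ a b : B, IsSelfAdjoint a → IsSelfAdjoint b → Commute a b →
      τ (a + b) = τ a + τ b := by
    intro a b ha hb hab
    let T : Set B := {a, b}
    let S := StarSubalgebra.centralizer ℂ (StarSubalgebra.centralizer ℂ T : Set B)
    have hT : T ⊆ StarSubalgebra.centralizer ℂ T := by
      intro x hx
      rw [SetLike.mem_coe, StarSubalgebra.mem_centralizer_iff]
      intro g hg
      rcases hx with rfl | rfl <;> rcases hg with rfl | rfl
      · exact ⟨rfl, by rw [ha.star_eq]⟩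
      · exact ⟨hab.symm.eq, by rw [hb.star_eq]; exact hab.symm.eq⟩
      · exact ⟨hab.eq, by rw [ha.star_eq]; exact hab.eq⟩
      · exact ⟨rfl, by rw [hb.star_eq]⟩
    have hS : (S : Set B) ⊆ StarSubalgebra.centralizer ℂ T :=
      StarSubalgebra.centralizer_le ℂ _ _ hT
    have hTS : T ⊆ S := by
      intro x hx
      rw [SetLike.mem_coe, StarSubalgebra.mem_centralizer_iff]
      intro g hg
      have hg' := (StarSubalgebra.mem_centralizer_iff ℂ).1 hg x hx
      have hg'' := (StarSubalgebra.mem_centralizer_iff ℂ).1 (star_mem hg) x hx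
      exact ⟨hg'.1.symm, hg''.1.symm⟩
    refine h.add S ?_ ?_ a (hTS (by simp [T])) b (hTS (by simp [T]))
    · rw [StarSubalgebra.coe_centralizer]
      exact Set.isClosed_centralizer _
    · intro x hx y hy
      exact ((StarSubalgebra.mem_centralizer_iff ℂ).1 hy x (hS hx)).1
  refine ⟨h.tracial, ?_, key⟩
  have := key 0 0 (IsSelfAdjoint.zero _) (IsSelfAdjoint.zero _) (Commute.refl _)
  rw [add_zero] at this
  simpa using this

theorem dimFn_proj {B : Type} [CStarAlgebra B] (σ : B → ℂ) {p : B} (hp : IsSelfAdjoint p)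
    (hpp : p * p = p) : dimFn σ p = (σ p).re := by
  unfold dimFn
  have : ∀ k : ℕ, cfc (fun t : ℝ => t ^ (1 / ((k : ℝ) + 1))) p = p := by
    intro k
    conv_rhs => rw [← cfc_id ℝ p]
    refine cfc_congr fun t ht => ?_
    have h1 : t ∈ ({0, 1} : Set ℝ) := IsIdempotentElem.spectrum_subset ℝ hpp ht
    rcases h1 with rfl | rfl
    · exact Real.zero_rpow (by positivity)
    · exact Real.one_rpow _
  simp only [this]
  exact tendsto_const_nhds.limUnder_eq

theorem mat0_ext {B : Type} [CStarAlgebra B] [PartialOrder B] [StarOrderedRing B] {u v : Mat B 0}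
    (h : u 0 0 = v 0 0) : u = v := by
  ext i j
  rw [Subsingleton.elim (α := Fin 1) i 0, Subsingleton.elim (α := Fin 1) j 0]
  exact h

theorem corner_zero {B : Type} [CStarAlgebra B] [PartialOrder B] [StarOrderedRing B] (x : B) :
    corner 0 x 0 0 = x := by simp [corner]

/-- the identification with one by one matrices -/
def cornerHom (B : Type) [CStarAlgebra B] [PartialOrder B] [StarOrderedRing B] :
    B →⋆ₐ[ℂ] Mat B 0 where
  toFun := corner 0
  map_one' := mat0_ext (by simp [corner_zero])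
  map_mul' x y := mat0_ext (by simp [corner_zero, CStarMatrix.mul_apply])
  map_zero' := mat0_ext (by simp [corner_zero])
  map_add' x y := mat0_ext (by simp [corner_zero])
  commutes' c := mat0_ext (by simp [corner_zero, CStarMatrix.algebraMap_apply])
  map_star' x := mat0_ext (by simp [corner_zero, CStarMatrix.star_apply])

theorem rc_pos {B : Type} [CStarAlgebra B] [PartialOrder B] [StarOrderedRing B] {p q : B}
    (hp : IsSelfAdjoint p) (hpp : p * p = p) (hq : IsSelfAdjoint q) (hqq : q * q = q)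
    (h : ∀ τ : B → ℂ, WQT τ → τ 1 = 1 → τ p = 3⁻¹ ∧ τ q = 2 * 3⁻¹) (hn : ¬ CuntzLE p q) :
    (3⁻¹ : ℝ≥0∞) ≤ rc B := by
  let e : B →⋆ₐ[ℂ] Mat B 0 := cornerHom B
  have he : ∀ x, e x = corner 0 x := fun _ => rfl
  have hsurj : Function.Surjective e := fun v => ⟨v 0 0, mat0_ext (corner_zero _)⟩
  have hnorm : ∀ x, ‖e x‖ = ‖x‖ := NonUnitalStarAlgHom.norm_map e fun x y hxy => by
    rw [← corner_zero x, ← corner_zero y, ← he, ← he, hxy]
  unfold rc
  refine le_iInf fun r => le_iInf fun hr => ?_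
  by_contra hlt
  push Not at hlt
  have hr' : (r : ℝ) < 3⁻¹ := by
    have h1 : (r : ℝ≥0∞) < ((3⁻¹ : ℝ≥0) : ℝ≥0∞) := by simpa using hlt
    exact_mod_cast ENNReal.coe_lt_coe.1 h1
  apply hn
  have hP : IsSelfAdjoint (e p) := hp.map e
  have hQ : IsSelfAdjoint (e q) := hq.map e
  have hPP : e p * e p = e p := by rw [← map_mul, hpp]
  have hQQ : e q * e q = e q := by rw [← map_mul, hqq]
  have h1 := hr 0 (e p) (e q)
    (by rw [← hPP]; nth_rewrite 1 [← hP.star_eq]; exact star_mul_self_nonneg _)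
    (by rw [← hQQ]; nth_rewrite 1 [← hQ.star_eq]; exact star_mul_self_nonneg _)
    (fun τ σ hτ hσ => by
      rw [dimFn_proj σ hP hPP, dimFn_proj σ hQ hQQ, he, he, hσ.2, hσ.2]
      obtain ⟨a1, a2⟩ := h τ hτ.1.wqt hτ.2.1
      rw [a1, a2]
      norm_num
      linarith)
  intro ε hε
  obtain ⟨v, hv⟩ := h1 ε hε
  obtain ⟨w, rfl⟩ := hsurj v
  refine ⟨w, ?_⟩
  rwa [← map_star, ← map_mul, ← map_mul, ← map_sub, hnorm] at hv

end

end Pool.Agent.H95Z.Vil
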