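import Pool.Agent.Helper133.BUProd

/-!
A Borsuk-Ulam theorem for equivariant matrix functions on finite products of spheres.
-/

namespace Pool.Agent.H95Z.Vil

open Pool.Agent.Helper133.BU Pool.Agent.Helper133.BT Matrix

set_option linter.unusedSectionVars false

noncomputable section

/-- the sphere of dimension `m`, as the surface of the cross polytope -/
abbrev Sph (m : ℕ) : Type := ↥(K m)

instance (m : ℕ) : CompactSpace (Sph m) := isCompact_iff_compactSpace.mp (K_compact m)

instance (m : ℕ) : Nonempty (Sph m) := ⟨⟨ev m 0, ev_mem m⟩⟩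

/-- the antipodal map -/
def sneg {m : ℕ} (x : Sph m) : Sph m := ⟨-x.1, K_neg m x.2⟩

theorem continuous_sneg {m : ℕ} : Continuous (sneg : Sph m → Sph m) :=
  Continuous.subtype_mk (continuous_subtype_val.neg) _

/-- a product of spheres -/
abbrev Sp {J : Type} (d : J → ℕ) : Type := ∀ j : J, Sph (d j)

/-- the antipodal map in one factor -/
def flp' {J : Type} [DecidableEq J] {d : J → ℕ} (j : J) (y : Sp d) : Sp d :=
  Function.update y j (sneg (y j))

/-- the sign of a label under the antipodal map in the factor `j` -/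
def sgnL {J : Type} [DecidableEq J] (j : J) (l : Option J) : ℝ := if l = some j then -1 else 1

theorem K_cast {m m' : ℕ} (h : m = m') {x : Fin (m' + 1) → ℝ} (hx : x ∈ K m') :
    (fun i : Fin (m + 1) => x (Fin.cast (congrArg (· + 1) h) i)) ∈ K m := by
  subst h; exact hx

theorem tri_fin {J : Type} [Fintype J] [DecidableEq J] (d : J → ℕ) (hd : ∀ j, 1 ≤ d j) (a : ℕ)
    (ha : 1 ≤ a) {T : Type} [Fintype T] (lab : T → Option J) (g : T → Sph a × Sp d → ℝ)
    (hg : ∀ t, Continuous (g t)) (hodd : ∀ t w y, g t (sneg w, y) = -g t (w, y))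
    (hflp : ∀ t w y j, g t (w, flp' j y) = sgnL j (lab t) * g t (w, y))
    (h0 : Nat.card {t // lab t = none} ≤ a)
    (h1 : ∀ j, Nat.card {t // lab t = some j} ≤ d j) : ∃ p, ∀ t, g t p = 0 := by
  classical
  let r := Fintype.card J
  let e : J ≃ Fin r := Fintype.equivFin J
  let n : ℕ → ℕ := fun k => match k with
    | 0 => a
    | k + 1 => if h : k < r then d (e.symm ⟨k, h⟩) else 1
  have hn : ∀ i, 1 ≤ n i := by
    intro i
    cases i with
    | zero => exact ha
    | succ k =>
      simp only [n]
      split_ifs
      · exact hd _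
      · exact le_rfl
  have hnd : ∀ j, d j = n ((e j : ℕ) + 1) := by
    intro j
    simp only [n]
    rw [dif_pos (e j).2]
    simp
  let ι : Option J → ℕ := fun l => match l with
    | none => 0
    | some j => (e j : ℕ) + 1
  have hι : Function.Injective ι := by
    intro l l' h
    cases l <;> cases l' <;> simp only [ι] at h
    · rfl
    · omega
    · omega
    · have h' : e _ = e _ := Fin.ext (Nat.succ_injective h)
      rw [e.injective h']
  have hιr : ∀ l, ι l < r + 1 := by
    intro l
    cases l with
    | none => exact Nat.succ_pos r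
    | some j => exact Nat.succ_lt_succ (e j).2
  have hcard : ∀ l, Fintype.card {t // lab t = l} ≤ Fintype.card (Fin (n (ι l))) := by
    intro l
    rw [Fintype.card_fin, ← Nat.card_eq_fintype_card]
    cases l with
    | none => exact h0
    | some j => exact (h1 j).trans (hnd j).le
  have hemb : ∀ l, Nonempty ({t // lab t = l} ↪ Fin (n (ι l))) := fun l =>
    Function.Embedding.nonempty_of_card_le (hcard l)
  let κ' : ∀ l, {t // lab t = l} ↪ Fin (n (ι l)) := fun l => (hemb l).some
  let κ : T → ℕ := fun t => κ' (lab t) ⟨t, rfl⟩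
  have hκlt : ∀ t, κ t < n (ι (lab t)) := fun t => (κ' (lab t) ⟨t, rfl⟩).2
  have hκinj : ∀ t t', lab t = lab t' → κ t = κ t' → t = t' := by
    intro t t' hl hk
    have key : ∀ l (h : lab t' = l), κ t' = κ' l ⟨t', h⟩ := by
      intro l h; subst h; rfl
    rw [key (lab t) hl.symm] at hk
    have h2 := (κ' (lab t)).injective (Fin.ext hk)
    exact congrArg Subtype.val h2
  let toP : PP n → Sph a × Sp d := fun v =>
    (⟨v.1 0, v.2 0⟩, fun j => ⟨fun i => v.1 (e j + 1) (Fin.cast (congrArg (· + 1) (hnd j)) i),
      K_cast (hnd j) (v.2 ((e j : ℕ) + 1))⟩)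
  have htoP : Continuous toP := by
    have hc : ∀ k, Continuous fun v : PP n => v.1 k := fun k =>
      (continuous_apply (A := fun i : ℕ => Fin (n i + 1) → ℝ) k).comp continuous_subtype_val
    refine Continuous.prodMk ?_ ?_
    · exact Continuous.subtype_mk (hc 0) _
    · refine continuous_pi fun j => Continuous.subtype_mk (continuous_pi fun i => ?_) _
      exact (continuous_apply _).comp (hc _)
  have hP0 : ∀ (v : Om n) (hv : v ∈ PP n), toP ⟨flp n 0 v, flp_mem n 0 hv⟩ =
      (sneg (toP ⟨v, hv⟩).1, (toP ⟨v, hv⟩).2) := by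
    intro v hv
    refine Prod.ext (Subtype.ext ?_) (funext fun j => Subtype.ext ?_)
    · simp [toP, flp, sneg]
    · funext i
      simp [toP, flp]
  have hPj : ∀ (j : J) (v : Om n) (hv : v ∈ PP n),
      toP ⟨flp n (e j + 1) v, flp_mem n _ hv⟩ =
      ((toP ⟨v, hv⟩).1, flp' j (toP ⟨v, hv⟩).2) := by
    intro j v hv
    refine Prod.ext (Subtype.ext ?_) (funext fun j' => Subtype.ext ?_)
    · simp [toP, flp]
    · funext i
      by_cases hj : j' = j
      · subst hj
        simp [toP, flp, flp', sneg]
      · have hne : (e j' : ℕ) + 1 ≠ e j + 1 := by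
          intro h
          exact hj (e.injective (Fin.ext (Nat.succ_injective h)))
        simp [toP, flp, flp', Function.update_of_ne hne, Function.update_of_ne hj]
  let f : ℕ → ℕ → Om n → ℝ := fun i s v =>
    if hv : v ∈ PP n then ∑ t with (ι (lab t) = i ∧ κ t = s), g t (toP ⟨v, hv⟩) else 0
  let p : ℕ → ℕ → ℕ → ZMod 2 := fun i _ k => if k = i ∨ k = 0 then 1 else 0
  obtain ⟨v, hv, hz⟩ := triangular n hn (r + 1) p (fun i s => by simp [p])
    (fun i s k hik => by
      simp only [p]
      rw [if_neg]
      omega) f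
    (fun i s => by
      rw [continuousOn_iff_continuous_domRestrict]
      have : (PP n).domRestrict (f i s) =
          fun v => ∑ t with (ι (lab t) = i ∧ κ t = s), g t (toP v) := by
        funext v
        simp only [Set.domRestrict_apply, f]
        rw [dif_pos v.2]
      rw [this]
      exact continuous_finsetSum _ fun t _ => (hg t).comp htoP)
    (fun i _ s _ k hk v hv => by
      simp only [f]
      rw [dif_pos hv, dif_pos (flp_mem n k hv), Finset.mul_sum]
      refine Finset.sum_congr rfl fun t ht => ?_
      rw [Finset.mem_filter] at ht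
      obtain ⟨-, hti, -⟩ := ht
      cases k with
      | zero =>
        rw [hP0 v hv, hodd]
        simp [p, sgn]
      | succ k =>
        have hk' : k < r := Nat.lt_of_succ_lt_succ hk
        obtain ⟨j, rfl⟩ : ∃ j, k = e j := ⟨e.symm ⟨k, hk'⟩, by simp⟩
        rw [hPj j v hv, hflp]
        congr 1
        by_cases hl : lab t = some j
        · have : (e j : ℕ) + 1 = i := by rw [← hti, hl]
          simp [p, sgn, sgnL, hl, this]
        · have : ¬ ((e j : ℕ) + 1 = i) := by
            intro h
            apply hl
            apply hι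
            rw [hti, ← h]
          simp [p, sgn, sgnL, hl, this])
  refine ⟨toP ⟨v, hv⟩, fun t => ?_⟩
  have h := hz (ι (lab t)) (hιr _) (κ t) (hκlt t)
  simp only [f] at h
  rw [dif_pos hv, Finset.sum_eq_single t] at h
  · exact h
  · intro t' ht' hne
    rw [Finset.mem_filter] at ht'
    exact absurd (hκinj t' t (hι ht'.2.1) ht'.2.2) hne
  · intro h'
    exact absurd (by simp) h'

theorem card_prod_bool {T : Type} {L : Type} (lab : T → L) (l : L) :
    Nat.card {t : T × Bool // lab t.1 = l} = 2 * Nat.card {t // lab t = l} := by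
  have e : {t : T × Bool // lab t.1 = l} ≃ {t // lab t = l} × Bool :=
    { toFun := fun t => (⟨t.1.1, t.2⟩, t.1.2)
      invFun := fun t => ⟨(t.1.1, t.2), t.1.2⟩
      left_inv := fun _ => rfl
      right_inv := fun _ => rfl }
  rw [Nat.card_congr e, Nat.card_prod, mul_comm]
  simp

/-- **An equivariant matrix function with many invariant columns is singular somewhere.** -/
theorem exists_kernel {J : Type} [Fintype J] [DecidableEq J] (d : J → ℕ) (hd : ∀ j, 1 ≤ d j)
    {T C : Type} [Fintype T] [Fintype C] (lab : T → Option J) (M : Sp d → Matrix T C ℂ)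
    (hM : Continuous M) (hflp : ∀ y j t c, M (flp' j y) t c = (sgnL j (lab t) : ℂ) * M y t c)
    (h0 : Nat.card {t // lab t = none} < Nat.card C)
    (h1 : ∀ j, 2 * Nat.card {t // lab t = some j} ≤ d j) :
    ∃ (y : Sp d) (w : C → ℂ), w ≠ 0 ∧ M y *ᵥ w = 0 := by
  classical
  rw [Nat.card_eq_fintype_card (α := C)] at h0
  have hC : 1 ≤ Fintype.card C := by omega
  obtain ⟨a, ha⟩ : ∃ a, a + 1 = 2 * Fintype.card C := ⟨2 * Fintype.card C - 1, by omega⟩
  have hcard : Fintype.card (C × Bool) = Fintype.card (Fin (a + 1)) := by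
    rw [Fintype.card_prod, Fintype.card_bool, Fintype.card_fin, ha, mul_comm]
  let e : C × Bool ≃ Fin (a + 1) := Fintype.equivOfCardEq hcard
  let w : Sph a → C → ℂ := fun x c => ⟨x.1 (e (c, false)), x.1 (e (c, true))⟩
  have hwc : Continuous w := by
    refine continuous_pi fun c => ?_
    have : (fun x : Sph a => w x c) = fun x : Sph a =>
        ((x.1 (e (c, false)) : ℝ) : ℂ) + ((x.1 (e (c, true)) : ℝ) : ℂ) * Complex.I := by
      funext x
      apply Complex.ext <;> simp [w]
    rw [this]
    have hc : ∀ i, Continuous fun x : Sph a => ((x.1 i : ℝ) : ℂ) := fun i =>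
      Complex.continuous_ofReal.comp ((continuous_apply i).comp continuous_subtype_val)
    exact (hc _).add ((hc _).mul continuous_const)
  have hwneg : ∀ x, w (sneg x) = -w x := by
    intro x
    funext c
    apply Complex.ext <;> simp [w, sneg]
  have hw0 : ∀ x, w x ≠ 0 := by
    intro x hx
    have h1 : ∀ i, x.1 i = 0 := by
      intro i
      obtain ⟨⟨c, b⟩, rfl⟩ := e.surjective i
      have h2 := congrFun hx c
      cases b
      · exact congrArg Complex.re h2
      · exact congrArg Complex.im h2
    have h2 : ∑ i, |x.1 i| = 1 := x.2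
    simp [h1] at h2
  let u : Sph a × Sp d → T → ℂ := fun p => M p.2 *ᵥ w p.1
  have huc : Continuous u := (hM.comp continuous_snd).matrix_mulVec (hwc.comp continuous_fst)
  let g : T × Bool → Sph a × Sp d → ℝ := fun t p => if t.2 then (u p t.1).im else (u p t.1).re
  obtain ⟨p, hp⟩ := tri_fin d hd a (by omega) (fun t : T × Bool => lab t.1) g
    (fun t => by
      have h := (continuous_apply t.1).comp huc
      simp only [g]
      split_ifs
      · exact Complex.continuous_im.comp h
      · exact Complex.continuous_re.comp h)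
    (fun t x y => by
      have h : u (sneg x, y) = -u (x, y) := by simp only [u, hwneg, mulVec_neg]
      simp only [g, h]
      split_ifs <;> simp)
    (fun t x y j => by
      have h : u (x, flp' j y) t.1 = (sgnL j (lab t.1) : ℂ) * u (x, y) t.1 := by
        simp only [u, mulVec, dotProduct, hflp, Finset.mul_sum, mul_assoc]
      simp only [g, h]
      split_ifs <;> simp)
    (by rw [card_prod_bool]; omega)
    (fun j => by rw [card_prod_bool]; exact h1 j)
  refine ⟨p.2, w p.1, hw0 _, ?_⟩
  funext t
  apply Complex.ext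
  · exact hp (t, false)
  · exact hp (t, true)

end

end Pool.Agent.H95Z.Vil
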