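import Mathlib

/-!
Definitions: quasitraces, dimension functions, Cuntz subequivalence, radius of comparison,
tracial states, stable finiteness and stable rank one for unital C*-algebras.
-/

namespace Pool.Agent.H95Z.Vil

open Filter
open scoped ComplexOrder ENNReal NNReal

/-- A quasitrace (Blackadar and Handelman): `τ (x* x) = τ (x x*) ≥ 0`, `τ` is linear on every
abelian C*-subalgebra, and `τ (a + i b) = τ a + i τ b` for selfadjoint `a`, `b`. -/
structure IsQuasitrace {B : Type*} [CStarAlgebra B] (τ : B → ℂ) : Prop where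
  nonneg : ∀ x : B, 0 ≤ τ (star x * x)
  tracial : ∀ x : B, τ (star x * x) = τ (x * star x)
  add : ∀ S : StarSubalgebra ℂ B, IsClosed (S : Set B) → (∀ x ∈ S, ∀ y ∈ S, x * y = y * x) →
    ∀ x ∈ S, ∀ y ∈ S, τ (x + y) = τ x + τ y
  smul : ∀ S : StarSubalgebra ℂ B, IsClosed (S : Set B) → (∀ x ∈ S, ∀ y ∈ S, x * y = y * x) →
    ∀ (c : ℂ), ∀ x ∈ S, τ (c • x) = c * τ x
  re_im : ∀ a b : B, IsSelfAdjoint a → IsSelfAdjoint b →
    τ (a + Complex.I • b) = τ a + Complex.I * τ b

/-- `d_σ(a) = lim_k σ (a ^ (1 / k))` -/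
noncomputable def dimFn {B : Type*} [CStarAlgebra B] (σ : B → ℂ) (a : B) : ℝ :=
  limUnder atTop fun k : ℕ => (σ (cfc (fun t : ℝ => t ^ (1 / ((k : ℝ) + 1))) a)).re

/-- Cuntz subequivalence: `a` is a norm limit of elements `v b v*` -/
def CuntzLE {B : Type*} [CStarAlgebra B] (a b : B) : Prop :=
  ∀ ε : ℝ, 0 < ε → ∃ v : B, ‖v * b * star v - a‖ < ε

section

variable (A : Type*) [CStarAlgebra A] [PartialOrder A] [StarOrderedRing A]

/-- the C*-algebra `M_(n+1)(A)` -/
abbrev Mat (n : ℕ) : Type _ := CStarMatrix (Fin (n + 1)) (Fin (n + 1)) A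

variable {A}

/-- the matrix with `x` in the upper left corner and zero elsewhere -/
def corner (n : ℕ) (x : A) : Mat A n := CStarMatrix.ofMatrix (Matrix.single 0 0 x)

/-- `σ` is a quasitrace on `M_(n+1)(A)` which extends `τ` from the upper left corner -/
def Extends (τ : A → ℂ) (n : ℕ) (σ : Mat A n → ℂ) : Prop :=
  IsQuasitrace σ ∧ ∀ x : A, σ (corner n x) = τ x

/-- a normalized 2-quasitrace: a quasitrace with `τ 1 = 1` which extends to `M_2(A)` -/
def IsNormQT2 (τ : A → ℂ) : Prop :=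
  IsQuasitrace τ ∧ τ 1 = 1 ∧ ∃ σ : Mat A 1 → ℂ, Extends τ 1 σ

variable (A)

/-- comparison with gap `r`: for positive matrices `a`, `b` over `A`, if `d_τ(a) + r < d_τ(b)` for
all normalized 2-quasitraces `τ` (evaluated on matrices through their extensions), then `a` is
Cuntz subequivalent to `b` -/
def HasComparison (r : ℝ) : Prop :=
  ∀ (n : ℕ) (a b : Mat A n), 0 ≤ a → 0 ≤ b →
    (∀ (τ : A → ℂ) (σ : Mat A n → ℂ), IsNormQT2 τ → Extends τ n σ →
      dimFn σ a + r < dimFn σ b) → CuntzLE a b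

/-- the radius of comparison, with value `∞` if no `r` has the property -/
noncomputable def rc : ℝ≥0∞ := ⨅ (r : ℝ≥0) (_ : HasComparison A r), (r : ℝ≥0∞)

end

/-- the tracial states, in the weak-* topology -/
def tracialStates (A : Type*) [CStarAlgebra A] : Set (WeakDual ℂ A) :=
  {τ | τ 1 = 1 ∧ (∀ x : A, 0 ≤ τ (star x * x)) ∧ ∀ x y : A, τ (x * y) = τ (y * x)}

/-- every isometry in every matrix algebra over `A` is a unitary -/
def StablyFinite (A : Type*) [CStarAlgebra A] : Prop :=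
  ∀ (n : ℕ) (v : Matrix (Fin n) (Fin n) A), star v * v = 1 → v * star v = 1

/-- the invertible elements are dense -/
def StableRankOne (A : Type*) [CStarAlgebra A] : Prop := Dense {a : A | IsUnit a}

end Pool.Agent.H95Z.Vil
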