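import Mathlib

/-!
Inductive limits of sequences of unital C*-algebras with injective unital connecting maps.
-/

namespace Pool.Agent.H95Z.Vil

open UniformSpace

set_option linter.unusedSectionVars false

noncomputable section

section compl

variable (D : Type) [NormedRing D] [StarRing D] [NormedAlgebra ℂ D] [StarModule ℂ D] [CStarRing D]

/-- the completion of a pre-C*-algebra -/
def Cpl : Type := Completion D

instance : NormedRing (Cpl D) := inferInstanceAs (NormedRing (Completion D))

instance : CompleteSpace (Cpl D) := inferInstanceAs (CompleteSpace (Completion D))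

instance : Algebra ℂ (Cpl D) := inferInstanceAs (Algebra ℂ (Completion D))

instance : NormedAlgebra ℂ (Cpl D) :=
  { (inferInstance : Algebra ℂ (Cpl D)) with
    norm_smul_le := fun r x => norm_smul_le r (show Completion D from x) }

/-- the canonical map -/
def toCpl (x : D) : Cpl D := (x : Completion D)

theorem ucs : UniformContinuous (star : D → D) := star_isometry.uniformContinuous

instance : Star (Cpl D) := ⟨fun x => Completion.map star (show Completion D from x)⟩

theorem star_toCpl (x : D) : star (toCpl D x) = toCpl D (star x) :=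
  Completion.map_coe (ucs D) x

theorem cont_star : Continuous (star : Cpl D → Cpl D) := Completion.continuous_map

theorem toCpl_mul (x y : D) : toCpl D (x * y) = toCpl D x * toCpl D y := Completion.coe_mul x y
theorem toCpl_add (x y : D) : toCpl D (x + y) = toCpl D x + toCpl D y := Completion.coe_add x y
theorem toCpl_smul (c : ℂ) (x : D) : toCpl D (c • x) = c • toCpl D x := Completion.coe_smul c x
theorem norm_toCpl (x : D) : ‖toCpl D x‖ = ‖x‖ := Completion.norm_coe x
theorem dense_toCpl : DenseRange (toCpl D) := Completion.denseRange_coe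

theorem cpl_ind {p : Cpl D → Prop} (a : Cpl D) (hp : IsClosed {a | p a})
    (ih : ∀ a : D, p (toCpl D a)) : p a := Completion.induction_on (show Completion D from a) hp ih

theorem cpl_ind₂ {p : Cpl D → Cpl D → Prop} (a b : Cpl D)
    (hp : IsClosed {x : Cpl D × Cpl D | p x.1 x.2})
    (ih : ∀ a b : D, p (toCpl D a) (toCpl D b)) : p a b :=
  Completion.induction_on₂ (show Completion D from a) (show Completion D from b) hp ih

instance : StarRing (Cpl D) where
  star_involutive a := by
    have hc := cont_star D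
    refine cpl_ind D (p := fun a => star (star a) = a) a
      (isClosed_eq (hc.comp hc) continuous_id) fun a => ?_
    rw [star_toCpl, star_toCpl, star_star]
  star_mul a b := by
    have hc := cont_star D
    refine cpl_ind₂ D (p := fun a b => star (a * b) = star b * star a) a b
      (isClosed_eq (hc.comp (by fun_prop))
        ((hc.comp continuous_snd).mul (hc.comp continuous_fst))) fun a b => ?_
    rw [← toCpl_mul, star_toCpl, star_toCpl, star_toCpl, ← toCpl_mul, star_mul]
  star_add a b := by
    have hc := cont_star D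
    refine cpl_ind₂ D (p := fun a b => star (a + b) = star a + star b) a b
      (isClosed_eq (hc.comp (by fun_prop))
        ((hc.comp continuous_fst).add (hc.comp continuous_snd))) fun a b => ?_
    rw [← toCpl_add, star_toCpl, star_toCpl, star_toCpl, ← toCpl_add, star_add]

theorem cont_smul (c : ℂ) : Continuous fun a : Cpl D => c • a := by
  have : (fun a : Cpl D => c • a) = fun a => algebraMap ℂ (Cpl D) c * a := by
    funext a; exact Algebra.smul_def c a
  rw [this]; exact continuous_const_mul _

instance : StarModule ℂ (Cpl D) where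
  star_smul c a := by
    have hc := cont_star D
    refine cpl_ind D (p := fun a => star (c • a) = star c • star a) a
      (isClosed_eq (hc.comp (cont_smul D c)) ((cont_smul D (star c)).comp hc)) fun a => ?_
    rw [← toCpl_smul, star_toCpl, star_toCpl, ← toCpl_smul, star_smul]

instance : CStarRing (Cpl D) where
  norm_mul_self_le a := by
    have hc := cont_star D
    refine cpl_ind D (p := fun a => ‖a‖ * ‖a‖ ≤ ‖star a * a‖) a
      (isClosed_le (by fun_prop) ((hc.mul continuous_id).norm)) fun a => ?_
    rw [star_toCpl, ← toCpl_mul, norm_toCpl, norm_toCpl]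
    exact CStarRing.norm_mul_self_le a

instance : CStarAlgebra (Cpl D) where

/-- the canonical map as a star algebra homomorphism -/
def toCplHom : D →⋆ₐ[ℂ] Cpl D where
  toFun := toCpl D
  map_one' := rfl
  map_mul' := toCpl_mul D
  map_zero' := Completion.coe_zero
  map_add' := toCpl_add D
  commutes' _ := rfl
  map_star' x := (star_toCpl D x).symm

end compl

section lim

variable {A : ℕ → Type} [∀ i, CStarAlgebra (A i)] (φ : ∀ i, A i →⋆ₐ[ℂ] A (i + 1))

/-- the composed connecting maps -/
def conn (i j : ℕ) (h : i ≤ j) : A i →⋆ₐ[ℂ] A j :=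
  Nat.leRec (motive := fun j _ => A i →⋆ₐ[ℂ] A j) (StarAlgHom.id ℂ _)
    (fun k _ g => (φ k).comp g) h

theorem conn_self (i : ℕ) (x : A i) : conn φ i i le_rfl x = x := by
  unfold conn
  rw [Nat.leRec_self]; rfl

theorem conn_succ (i j : ℕ) (h : i ≤ j) (x : A i) :
    conn φ i (j + 1) (Nat.le_succ_of_le h) x = φ j (conn φ i j h x) := by
  unfold conn
  rw [Nat.leRec_succ _ _ h]; rfl

theorem conn_conn (i j : ℕ) (hij : i ≤ j) (k : ℕ) (hjk : j ≤ k) (x : A i) :
    conn φ j k hjk (conn φ i j hij x) = conn φ i k (hij.trans hjk) x := by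
  induction k, hjk using Nat.le_induction with
  | base => rw [conn_self]
  | succ k hjk ih => rw [conn_succ φ j k hjk, ih, conn_succ φ i k (hij.trans hjk)]

instance : DirectedSystem A (fun i j h => conn φ i j h) where
  map_self i x := conn_self φ i x
  map_map k j i hij hjk x := conn_conn φ i j hij k hjk x

theorem norm_conn (hφ : ∀ i, Function.Injective (φ i)) (i j : ℕ) (h : i ≤ j) (x : A i) :
    ‖conn φ i j h x‖ = ‖x‖ := by
  induction j, h using Nat.le_induction with
  | base => rw [conn_self]
  | succ k hjk ih => rw [conn_succ φ i k hjk, NonUnitalStarAlgHom.norm_map _ (hφ k), ih]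

/-- the algebraic limit -/
def DL (_hφ : ∀ i, Function.Injective (φ i)) : Type := DirectLimit A (fun i j h => conn φ i j h)

variable (hφ : ∀ i, Function.Injective (φ i))

instance : Ring (DL φ hφ) := inferInstanceAs (Ring (DirectLimit A (fun i j h => conn φ i j h)))
instance : StarRing (DL φ hφ) :=
  inferInstanceAs (StarRing (DirectLimit A (fun i j h => conn φ i j h)))
instance : Algebra ℂ (DL φ hφ) :=
  inferInstanceAs (Algebra ℂ (DirectLimit A (fun i j h => conn φ i j h)))
instance : StarModule ℂ (DL φ hφ) :=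
  inferInstanceAs (StarModule ℂ (DirectLimit A (fun i j h => conn φ i j h)))

/-- the canonical maps to the algebraic limit -/
def ofDL (i : ℕ) : A i →⋆ₐ[ℂ] DL φ hφ :=
  { DirectLimit.Algebra.of (R := ℂ) A (fun i j h => conn φ i j h) i with
    map_star' := fun _ => rfl }

theorem ofDL_conn (i j : ℕ) (h : i ≤ j) (x : A i) : ofDL φ hφ j (conn φ i j h x) = ofDL φ hφ i x :=
  DirectLimit.Algebra.of_f (R := ℂ) (G := A) (f := fun i j h => conn φ i j h) h x

theorem dl_ex (x : DL φ hφ) : ∃ i a, x = ofDL φ hφ i a :=
  DirectLimit.exists_eq_mk (fun i j h => conn φ i j h) x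

theorem dl_ex₂ (x y : DL φ hφ) : ∃ i a b, x = ofDL φ hφ i a ∧ y = ofDL φ hφ i b :=
  DirectLimit.exists_eq_mk₂ (fun i j h => conn φ i j h) x y

/-- the norm on the algebraic limit -/
def nrm (x : DL φ hφ) : ℝ :=
  DirectLimit.lift (fun i j h => conn φ i j h) (fun _ a => ‖a‖)
    (fun i j h a => (norm_conn φ hφ i j h a).symm) x

theorem nrm_of (i : ℕ) (a : A i) : nrm φ hφ (ofDL φ hφ i a) = ‖a‖ := rfl

/-- the norm as a group norm -/
def nrmG : AddGroupNorm (DL φ hφ) where
  toFun := nrm φ hφ
  map_zero' := by rw [← map_zero (ofDL φ hφ 0), nrm_of, norm_zero]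
  add_le' x y := by
    obtain ⟨i, a, b, rfl, rfl⟩ := dl_ex₂ φ hφ x y
    rw [← map_add, nrm_of, nrm_of, nrm_of]; exact norm_add_le a b
  neg' x := by
    obtain ⟨i, a, rfl⟩ := dl_ex φ hφ x
    rw [← map_neg, nrm_of, nrm_of, norm_neg]
  eq_zero_of_map_eq_zero' x hx := by
    obtain ⟨i, a, rfl⟩ := dl_ex φ hφ x
    rw [nrm_of, norm_eq_zero] at hx
    rw [hx, map_zero]

instance : NormedRing (DL φ hφ) :=
  { (inferInstance : Ring (DL φ hφ)), (nrmG φ hφ).toNormedAddCommGroup with
    norm_mul_le := fun x y => by
      obtain ⟨i, a, b, rfl, rfl⟩ := dl_ex₂ φ hφ x y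
      rw [← map_mul]; exact norm_mul_le a b }

theorem norm_ofDL (i : ℕ) (a : A i) : ‖ofDL φ hφ i a‖ = ‖a‖ := rfl

instance : NormedAlgebra ℂ (DL φ hφ) :=
  { (inferInstance : Algebra ℂ (DL φ hφ)) with
    norm_smul_le := fun c x => by
      obtain ⟨i, a, rfl⟩ := dl_ex φ hφ x
      rw [← map_smul]; exact norm_smul_le c a }

instance : CStarRing (DL φ hφ) where
  norm_mul_self_le x := by
    obtain ⟨i, a, rfl⟩ := dl_ex φ hφ x
    rw [← map_star, ← map_mul]; exact CStarRing.norm_mul_self_le a

include hφ in
/-- **Inductive limits of C*-algebras.** -/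
theorem exists_limit : ∃ (B : Type) (_ : CStarAlgebra B) (ψ : ∀ i, A i →⋆ₐ[ℂ] B),
    (∀ i a, ‖ψ i a‖ = ‖a‖) ∧ (∀ i a, ψ (i + 1) (φ i a) = ψ i a) ∧
    ∀ (b : B) (ε : ℝ), 0 < ε → ∃ i a, ‖b - ψ i a‖ < ε := by
  refine ⟨Cpl (DL φ hφ), inferInstance, fun i => (toCplHom _).comp (ofDL φ hφ i), ?_, ?_, ?_⟩
  · intro i a
    exact (norm_toCpl _ _).trans (norm_ofDL φ hφ i a)
  · intro i a
    have h := ofDL_conn φ hφ i (i + 1) (Nat.le_succ_of_le le_rfl) a
    rw [conn_succ φ i i le_rfl, conn_self] at h
    exact congrArg (toCplHom (DL φ hφ)) h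
  · intro b ε hε
    obtain ⟨x, hx⟩ := (dense_toCpl (DL φ hφ)).exists_dist_lt b hε
    obtain ⟨i, a, rfl⟩ := dl_ex φ hφ x
    exact ⟨i, a, by rwa [dist_eq_norm] at hx⟩

end lim

end

end Pool.Agent.H95Z.Vil
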