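import Pool.Agent.H95Z.Vil.Abs
import Pool.Agent.H95Z.Vil.Lim

/-!
The inductive system and its limit.
-/

namespace Pool.Agent.H95Z.Vil

open Filter Topology Matrix Stage
open scoped ComplexOrder ENNReal NNReal Matrix.Norms.L2Operator

set_option linter.unusedSectionVars false
set_option linter.unusedSimpArgs false

noncomputable section

/-- the first building block -/
@[reducible] def S0 : Stage where
  J := Unit
  d := fun _ => 4
  N := Option (Fin 2)
  lab := fun s => s.map fun _ => ()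
  o := fun s => s.isNone

theorem S0_good : S0.Good where
  hd _ := by simp
  h1 j := by
    rw [Nat.card_eq_fintype_card]
    revert j
    decide
  h0 := by
    rw [Nat.card_eq_fintype_card, Nat.card_eq_fintype_card]
    decide

theorem exists_net (S : Stage) (i : ℕ) : ∃ t : Finset S.Y, ∀ y, ∃ x ∈ t,
    dist x y < 1 / ((i : ℝ) + 1) := by
  obtain ⟨t, -, ht, hc⟩ := finite_cover_balls_of_compact (isCompact_univ (X := S.Y))
    (e := 1 / ((i : ℝ) + 1)) (by positivity)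
  refine ⟨ht.toFinset, fun y => ?_⟩
  obtain ⟨x, hx, hy⟩ := Set.mem_iUnion₂.1 (hc (Set.mem_univ y))
  exact ⟨x, ht.mem_toFinset.2 hx, by rwa [Metric.mem_ball, dist_comm] at hy⟩

/-- the chosen net -/
def net (S : Stage) (i : ℕ) : Finset S.Y := (exists_net S i).choose

/-- the number of trivial constant blocks -/
def nF (S : Stage) (i : ℕ) : ℕ := Fintype.card (↥(net S i) × (S.N × S.Co))

/-- the parameters of step `i` -/
@[reducible] def par (S : Stage) (i : ℕ) : Par S where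
  L := nF S i * Fintype.card S.N
  F := ↥(net S i)
  dF := Classical.decEq _
  f := Subtype.val
  m := i * (nF S i * Fintype.card S.N + 1 + nF S i)
  y0 := Classical.arbitrary _

/-- the sequence of building blocks -/
def St : ℕ → Stage
  | 0 => S0
  | i + 1 => (par (St i) i).next

theorem St_good : ∀ i, (St i).Good
  | 0 => S0_good
  | i + 1 => (par (St i) i).good (St_good i) le_rfl

/-- the connecting maps -/
def Φ (i : ℕ) : (St i).Al →⋆ₐ[ℂ] (St (i + 1)).Al := (par (St i) i).φ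

section

variable {B : Type} [CStarAlgebra B] (ψ : ∀ i, (St i).Al →⋆ₐ[ℂ] B)
  (hc : ∀ i a, ψ (i + 1) (Φ i a) = ψ i a)

include hc

theorem reach (Q : ∀ S : Stage, S.Mt → Prop)
    (hQ : ∀ (S : Stage) (P : Par S) (b : S.Al) (y : P.next.Y),
      Q S (ev (P.pr 0 y) b) → Q P.next (ev y (P.φ b)))
    (i : ℕ) (a : (St i).Al) (y0 : (St i).Y) (h : ∀ᶠ y in 𝓝 y0, Q _ (ev y a)) :
    ∃ (j : ℕ) (b : (St j).Al) (x : (par (St j) j).F), ψ j b = ψ i a ∧
      Q _ (ev ((par (St j) j).f x) b) := by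
  obtain ⟨δ, hδ, hδ'⟩ := Metric.eventually_nhds_iff.1 h
  have key : ∀ j, i ≤ j → ∃ b : (St j).Al, ψ j b = ψ i a ∧
      ∃ y1, ∀ y, dist y y1 < δ → Q _ (ev y b) := by
    intro j hj
    induction j, hj using Nat.le_induction with
    | base => exact ⟨a, rfl, y0, fun y hy => hδ' hy⟩
    | succ j _ ih =>
      obtain ⟨b, hb, y1, hy1⟩ := ih
      obtain ⟨y2, rfl⟩ := (par (St j) j).pr_surj 0 y1
      exact ⟨Φ j b, (hc j b).trans hb, y2, fun y hy =>
        hQ _ (par (St j) j) b y (hy1 _ (((par (St j) j).dist_pr 0 y y2).trans_lt hy))⟩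
  obtain ⟨n, hn⟩ := exists_nat_one_div_lt hδ
  obtain ⟨b, hb, y1, hy1⟩ := key (max i n) (le_max_left _ _)
  obtain ⟨x, hx, hxy⟩ := (exists_net (St (max i n)) (max i n)).choose_spec y1
  refine ⟨max i n, b, ⟨x, hx⟩, hb, hy1 x (hxy.trans_le (le_trans ?_ hn.le))⟩
  exact Nat.one_div_le_one_div (le_max_right _ _)

theorem St_sr (i : ℕ) (a : (St i).Al) : ψ i a ∈ CU B := by
  by_cases h : ∀ y, (ev y a).det ≠ 0
  · exact CU.map _ (CU.of_unit (isUnit_of_ev a h))
  push Not at h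
  obtain ⟨y0, hy0⟩ := h
  have hcl : closure (CU B) = CU B := closure_closure
  rw [← hcl, Metric.mem_closure_iff]
  intro ε hε
  obtain ⟨j, b, x, hb, s, hs, hs'⟩ := reach ψ hc (fun S X => ∃ s : S.Mt, s.det = 0 ∧ ‖X - s‖ < ε)
    (fun S P b y ⟨s, hs, hs'⟩ => by
      obtain ⟨s', h1, h2⟩ := P.sing_persist b y s hs
      exact ⟨s', h1, h2.trans_lt hs'⟩) i a y0 (by
      have h1 : Continuous fun y => ‖ev y a - ev y0 a‖ := ((continuous_ev a).sub
        continuous_const).norm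
      have h2 := h1.continuousAt (x := y0) |>.eventually_lt continuousAt_const
        (show ‖ev y0 a - ev y0 a‖ < ε by simpa using hε)
      exact h2.mono fun y hy => ⟨ev y0 a, hy0, hy⟩)
  obtain ⟨c, hc1, hc2⟩ := (par (St j) j).sr_step x b s hs
  refine ⟨ψ (j + 1) c, CU.map (ψ (j + 1)) hc1, ?_⟩
  rw [dist_eq_norm, ← hb, ← hc j b, ← map_sub]
  exact (NonUnitalStarAlgHom.norm_apply_le (ψ (j + 1)) _).trans_lt (hc2.trans_lt hs')

theorem St_full (i : ℕ) (a : (St i).Al) (κ : ℝ) (hκ : 0 ≤ κ) (h : κ < ‖a‖) :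
    ∃ (ι : Type) (_ : Fintype ι) (u : ι → B) (c : ℝ), κ ^ 2 < c ∧ ∑ k, star (u k) * u k = 1 ∧
      ∑ k, star (u k) * (star (ψ i a) * ψ i a) * u k = (c : ℂ) • 1 := by
  obtain ⟨y0, hy0⟩ := exists_lt_norm_ev a hκ h
  obtain ⟨j, b, x, hb, hx⟩ := reach ψ hc (fun S X => κ < ‖X‖)
    (fun S P b y hy => hy.trans_le (P.norm_ev_pr_le b y)) i a y0
    (continuousAt_const.eventually_lt (continuous_ev a).norm.continuousAt hy0)
  obtain ⟨ι, _, u, c, h1, h2, h3⟩ := (par (St j) j).full_step b x hκ hx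
  let ψ' : (par (St j) j).next.Al →⋆ₐ[ℂ] B := ψ (j + 1)
  have hb' : ψ' ((par (St j) j).φ b) = ψ i a := (hc j b).trans hb
  refine ⟨ι, inferInstance, fun k => ψ' (u k), c, h1, ?_, ?_⟩
  · have := congrArg ψ' h2
    simpa only [map_sum, map_mul, map_star, map_one] using this
  · have := congrArg ψ' h3
    rw [← hb']
    simpa only [map_sum, map_mul, map_star, map_one, map_smul] using this

theorem St_up (i j : ℕ) (hij : i ≤ j) (a : (St i).Al) (ha : IsSelfAdjoint a) :
    ∃ b : (St j).Al, IsSelfAdjoint b ∧ ψ j b = ψ i a ∧ ‖b‖ ≤ ‖a‖ := by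
  induction j, hij using Nat.le_induction with
  | base => exact ⟨a, ha, rfl, le_rfl⟩
  | succ j _ ih =>
    obtain ⟨b, h1, h2, h3⟩ := ih
    exact ⟨Φ j b, h1.map (Φ j), (hc j b).trans h2,
      (NonUnitalStarAlgHom.norm_apply_le (Φ j) b).trans h3⟩

theorem St_trace (i : ℕ) (a : (St i).Al) (ha : IsSelfAdjoint a) (η : ℝ) (hη : 0 < η) :
    ∃ c : ℂ, ∀ τ ∈ tracialStates B, ‖τ (ψ i a) - c‖ ≤ η := by
  obtain ⟨n, hn⟩ := exists_nat_one_div_lt (show 0 < η / (‖a‖ + 1) by positivity)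
  let j := max i n
  obtain ⟨b, hb1, hb2, hb3⟩ := St_up ψ hc i j (le_max_left _ _) a ha
  obtain ⟨t, ht⟩ := (St_good (j + 1)).exists_none
  let P := par (St j) j
  refine ⟨P.m * (ev P.y0 b).trace * (Fintype.card P.next.N : ℂ)⁻¹, fun τ hτ => ?_⟩
  let ψ' : P.next.Al →⋆ₐ[ℂ] B := ψ (j + 1)
  let τ' : P.next.Al →ₗ[ℂ] ℂ := (WeakDual.toStrongDual τ).toLinearMap.comp
    ψ'.toAlgHom.toLinearMap
  have hτ' : ∀ x, τ' x = τ (ψ' x) := fun _ => rfl
  have h1 := P.trace_step b hb1 ht τ'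
    (fun x => by rw [hτ', map_mul ψ', map_star ψ']; exact hτ.2.1 _)
    (fun x y => by rw [hτ', hτ', map_mul ψ', map_mul ψ']; exact hτ.2.2 _ _)
    (by rw [hτ', map_one ψ']; exact hτ.1)
  rw [hτ', show ψ' (P.φ b) = ψ i a from (hc j b).trans hb2] at h1
  refine h1.trans ?_
  have h2 : (((P.L + 1 + Fintype.card (P.F × ((St j).N × (St j).Co)) : ℕ) : ℝ) /
      ((P.L + 1 + Fintype.card (P.F × ((St j).N × (St j).Co)) + P.m : ℕ) : ℝ)) =
      1 / ((j : ℝ) + 1) := by
    have e : P.m = j * (P.L + 1 + Fintype.card (P.F × ((St j).N × (St j).Co))) := rfl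
    rw [e]
    generalize P.L = L
    generalize Fintype.card (P.F × ((St j).N × (St j).Co)) = k
    push_cast
    field_simp
    ring
  rw [h2]
  have h3 : 1 / ((j : ℝ) + 1) ≤ η / (‖a‖ + 1) :=
    (Nat.one_div_le_one_div (le_max_right _ _)).trans hn.le
  calc ‖b‖ * (1 / ((j : ℝ) + 1)) ≤ (‖a‖ + 1) * (η / (‖a‖ + 1)) :=
        mul_le_mul (by linarith) h3 (by positivity) (by positivity)
    _ = η := by field_simp

theorem St_pp : ∀ i, ψ i (St i).pp = ψ 0 (St 0).pp
  | 0 => rfl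
  | i + 1 => by
    rw [← St_pp i, ← hc i]
    exact congrArg _ (par (St i) i).φ_pp.symm

theorem St_qq : ∀ i, ψ i (St i).qq = ψ 0 (St 0).qq
  | 0 => rfl
  | i + 1 => by
    rw [← St_qq i, ← hc i]
    exact congrArg _ (par (St i) i).φ_qq.symm

end

theorem dg_proj {S : Stage} (v : S.N → ℂ) (hv : ∀ s, v s = 0 ∨ v s = 1) :
    IsSelfAdjoint (dg v) ∧ dg v * dg v = dg v := by
  constructor
  · refine ext_ev fun y => ?_
    rw [map_star, ev_dg, star_eq_conjTranspose, diagonal_conjTranspose]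
    congr 1
    funext s
    rcases hv s with h | h <;> simp [h]
  · refine ext_ev fun y => ?_
    rw [map_mul, ev_dg, diagonal_mul_diagonal]
    congr 1
    funext s
    rcases hv s with h | h <;> simp [h]

theorem S0_vals {τ : S0.Al → ℂ} (h : WQT τ) (h1 : τ 1 = 1) :
    τ S0.pp = 3⁻¹ ∧ τ S0.qq = 2 * 3⁻¹ := by
  have hE : ∀ s, τ (E s) = 3⁻¹ := fun s => by
    rw [wqt_E_val h h1 (t := none) rfl]
    simp
  have e1 : S0.pp = E none := by
    unfold pp E
    congr 1
    funext s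
    cases s <;> simp
  have e2 : S0.qq = E (some 0) + E (some 1) := by
    refine ext_ev fun y => ?_
    rw [map_add, qq, E, E, ev_dg, ev_dg, ev_dg, diagonal_add]
    congr 1
    funext s
    rcases s with _ | s
    · simp
    · fin_cases s <;> simp
  rw [e1, e2, h.add _ _ (E_sa _) (E_sa _) (dg_comm _ _), hE, hE, hE]
  exact ⟨rfl, by ring⟩

theorem main : ∃ (A : Type) (_ : CStarAlgebra A) (_ : PartialOrder A) (_ : StarOrderedRing A),
    IsSimpleRing A ∧ StablyFinite A ∧ StableRankOne A ∧ (3⁻¹ : ℝ≥0∞) ≤ rc A ∧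
    ∃ τ, tracialStates A = {τ} := by
  obtain ⟨B, _, ψ, hψ, hc, hd⟩ := exists_limit (A := fun i => (St i).Al) Φ
    (fun i => (par (St i) i).φ_inj)
  let _ := CStarAlgebra.spectralOrder B
  have _ := CStarAlgebra.spectralOrderedRing B
  obtain ⟨τ, hτ⟩ := lim_trace_ex ψ hd hψ (fun i a => ⟨Φ i a, hc i a⟩) (fun i => by
    obtain ⟨t, -⟩ := (St_good i).exists_none
    exact (St i).exists_trace ⟨t⟩)
  have hnt : Nontrivial B := ⟨0, 1, fun h => by
    have := hτ.1
    rw [← h, map_zero] at this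
    exact zero_ne_one this⟩
  have hs : IsSimpleRing B := lim_simple ψ hd hψ (St_full ψ hc)
  have hp := dg_proj (S := St 0) (fun s => if (St 0).o s then 1 else 0)
    (fun s => by split_ifs <;> simp)
  have hq := dg_proj (S := St 0) (fun s => if (St 0).o s then 0 else 1)
    (fun s => by split_ifs <;> simp)
  refine ⟨B, inferInstance, inferInstance, inferInstance, hs, stablyFinite_of_trace hτ,
    lim_sr1 ψ hd (St_sr ψ hc), ?_, τ,
    (lim_trace_uniq ψ hd (St_trace ψ hc)).eq_singleton_of_mem hτ⟩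
  refine rc_pos (p := ψ 0 (St 0).pp) (q := ψ 0 (St 0).qq) (hp.1.map (ψ 0))
    (by rw [← map_mul]; exact congrArg _ hp.2) (hq.1.map (ψ 0))
    (by rw [← map_mul]; exact congrArg _ hq.2)
    (fun σ hσ h1 => S0_vals (hσ.comp (ψ 0)) ((congrArg σ (map_one (ψ 0))).trans h1)) fun hle => ?_
  obtain ⟨v, hv⟩ := hle 1 one_pos
  set p := ψ 0 (St 0).pp with hpd
  set q := ψ 0 (St 0).qq with hqd
  have ho : IsOpen {v : B | ‖v * q * star v - p‖ < 1} := isOpen_lt (by fun_prop) continuous_const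
  obtain ⟨ε, hε, hball⟩ := Metric.isOpen_iff.1 ho v hv
  obtain ⟨i, w, hw⟩ := hd v ε hε
  have h1 : ‖ψ i w * q * star (ψ i w) - p‖ < 1 :=
    hball (by rwa [Metric.mem_ball, dist_comm, dist_eq_norm])
  rw [hpd, hqd, ← St_pp ψ hc i, ← St_qq ψ hc i, ← map_star, ← map_mul, ← map_mul, ← map_sub,
    hψ] at h1
  exact (St_good i).not_le w h1

theorem qt_of_linear {B : Type} [CStarAlgebra B] (τ : B → ℂ) (h1 : ∀ x y, τ (x + y) = τ x + τ y)
    (h2 : ∀ (c : ℂ) x, τ (c • x) = c * τ x) (h3 : ∀ x, 0 ≤ τ (star x * x))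
    (h4 : ∀ x, τ (star x * x) = τ (x * star x)) : IsQuasitrace τ where
  nonneg := h3
  tracial := h4
  add _ _ _ x _ y _ := h1 x y
  smul _ _ _ c x _ := h2 c x
  re_im a b _ _ := by rw [h1, h2]

theorem trace_extends {B : Type} [CStarAlgebra B] [PartialOrder B] [StarOrderedRing B]
    {τ : WeakDual ℂ B} (hτ : τ ∈ tracialStates B) (n : ℕ) : ∃ σ, Extends τ n σ := by
  refine ⟨fun x => ∑ i, τ (x i i), qt_of_linear _ (fun x y => ?_) (fun c x => ?_) (fun x => ?_)
    (fun x => ?_), fun x => ?_⟩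
  · simp only [CStarMatrix.add_apply, map_add, Finset.sum_add_distrib]
  · simp only [CStarMatrix.smul_apply, map_smul, smul_eq_mul, Finset.mul_sum]
  · simp only [CStarMatrix.mul_apply, CStarMatrix.star_apply, map_sum]
    exact Finset.sum_nonneg fun i _ => Finset.sum_nonneg fun k _ => hτ.2.1 _
  · simp only [CStarMatrix.mul_apply, CStarMatrix.star_apply, map_sum]
    rw [Finset.sum_comm]
    exact Finset.sum_congr rfl fun i _ => Finset.sum_congr rfl fun k _ => hτ.2.2 _ _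
  · change ∑ i, τ (corner n x i i) = τ x
    rw [Finset.sum_eq_single 0]
    · simp [corner]
    · intro i _ hi
      simp [corner, Ne.symm hi]
    · intro h; exact absurd (Finset.mem_univ _) h

theorem trace_qt2 {B : Type} [CStarAlgebra B] [PartialOrder B] [StarOrderedRing B]
    {τ : WeakDual ℂ B} (hτ : τ ∈ tracialStates B) : IsNormQT2 τ :=
  ⟨qt_of_linear _ (map_add τ) (fun c x => by rw [map_smul, smul_eq_mul]) hτ.2.1
    (fun x => hτ.2.2 _ _), hτ.1, trace_extends hτ 1⟩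

theorem main' : ∃ (A : Type) (_ : CStarAlgebra A) (_ : PartialOrder A) (_ : StarOrderedRing A),
    IsSimpleRing A ∧ StablyFinite A ∧ StableRankOne A ∧ 0 < rc A ∧
    IsClosed ((tracialStates A).extremePoints ℝ) ∧
    ∃ τ, tracialStates A = {τ} ∧ IsNormQT2 τ ∧ ∀ n, ∃ σ, Extends τ n σ := by
  obtain ⟨A, _, _, _, h1, h2, h3, h4, τ, hτ⟩ := main
  have hτ' : τ ∈ tracialStates A := hτ ▸ Set.mem_singleton τ
  refine ⟨A, inferInstance, inferInstance, inferInstance, h1, h2, h3,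
    lt_of_lt_of_le (by simp) h4, ?_, τ, hτ, trace_qt2 hτ', trace_extends hτ'⟩
  rw [hτ, extremePoints_singleton]
  exact isClosed_singleton

end

end Pool.Agent.H95Z.Vil
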