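import Pool.Agent.H95Z.Vil.Step

/-!
The connecting maps send singular elements to limits of invertible elements.
-/

namespace Pool.Agent.H95Z.Vil

open Matrix Filter Topology
open scoped Matrix.Norms.L2Operator

set_option linter.unusedSectionVars false
set_option linter.unusedSimpArgs false

noncomputable section

/-- the limits of invertible elements -/
def CU (A : Type) [CStarAlgebra A] : Set A := closure {x | IsUnit x}

section gen

variable {A : Type} [CStarAlgebra A]

theorem CU.mul {x y : A} (hx : x ∈ CU A) (hy : y ∈ CU A) : x * y ∈ CU A :=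
  map_mem_closure₂ (f := fun a b : A => a * b) continuous_mul hx hy fun _ ha _ hb => IsUnit.mul ha hb

theorem CU.of_unit {x : A} (hx : IsUnit x) : x ∈ CU A := subset_closure hx

theorem hom_cont {B : Type} [CStarAlgebra B] (ψ : A →⋆ₐ[ℂ] B) : Continuous ψ :=
  AddMonoidHomClass.continuous_of_bound ψ 1 fun x => by
    rw [one_mul]; exact NonUnitalStarAlgHom.norm_apply_le ψ x

theorem CU.map {B : Type} [CStarAlgebra B] (ψ : A →⋆ₐ[ℂ] B) {x : A} (hx : x ∈ CU A) :
    ψ x ∈ CU B :=
  map_mem_closure (f := ψ) (hom_cont ψ) hx fun _ ha => IsUnit.map ψ ha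

theorem CU.of_path {x z : A} (s : Set ℂ) (hs : s.Finite)
    (h : ∀ c : ℂ, c ∉ s → IsUnit (x + c • z)) : x ∈ CU A := by
  have h1 : Tendsto (fun c : ℂ => x + c • z) (𝓝[≠] 0) (𝓝 x) := by
    have : Continuous fun c : ℂ => x + c • z := by fun_prop
    have h2 := this.tendsto 0
    simp only [zero_smul, add_zero] at h2
    exact h2.mono_left nhdsWithin_le_nhds
  refine mem_closure_of_tendsto h1 ?_
  have h3 : ∀ᶠ c in 𝓝[≠] (0 : ℂ), c ∉ s := by
    have h4 : (s \ {0})ᶜ ∈ 𝓝 (0 : ℂ) :=
      (hs.subset Set.sdiff_subset).isClosed.isOpen_compl.mem_nhds (by simp)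
    filter_upwards [nhdsWithin_le_nhds h4, self_mem_nhdsWithin] with c hc hc0 hcs
    exact hc ⟨hcs, hc0⟩
  exact h3.mono fun c hc => h c hc

theorem CU.nilp {v b : A} (h1 : v * v = 0) (h2 : v * (star v * v) = v)
    (h3 : b * (star v * v) = b) (h4 : (star v * v) * b = b) :
    b + 1 - star v * v - v * star v ∈ CU A := by
  set w := star v with hw
  have h1' : w * w = 0 := by rw [hw, ← star_mul, h1, star_zero]
  have h2' : w * v * w = w := by
    have := congrArg star h2
    simpa only [star_mul, star_star, hw, mul_assoc] using this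
  have e1 : ∀ z, v * (v * z) = 0 := fun z => by rw [← mul_assoc, h1, zero_mul]
  have e2 : ∀ z, w * (w * z) = 0 := fun z => by rw [← mul_assoc, h1', zero_mul]
  have e3 : ∀ z, v * (w * (v * z)) = v * z := fun z => by
    rw [← mul_assoc w, ← mul_assoc v, h2]
  have e4 : ∀ z, w * (v * (w * z)) = w * z := fun z => by
    rw [← mul_assoc v, ← mul_assoc w, ← mul_assoc w, h2']
  have e4' : w * (v * w) = w := by rw [← mul_assoc, h2']
  have e5 : b * v = 0 := by rw [← h3, mul_assoc, mul_assoc, h1, mul_zero, mul_zero]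
  have e5' : ∀ z, b * (v * z) = 0 := fun z => by rw [← mul_assoc, e5, zero_mul]
  have e6 : w * b = 0 := by rw [← h4, mul_assoc, e2]
  have e6' : ∀ z, w * (b * z) = 0 := fun z => by rw [← mul_assoc, e6, zero_mul]
  have e7 : ∀ z, b * (w * (v * z)) = b * z := fun z => by
    rw [← mul_assoc w, ← mul_assoc b, h3]
  have e8 : ∀ z, w * (v * (b * z)) = b * z := fun z => by
    rw [← mul_assoc w, ← mul_assoc (w * v), h4]
  have e8' : w * (v * b) = b := by rw [← mul_assoc, h4]
  refine CU.of_path (z := v + w) {0} (Set.finite_singleton _) fun c hc => ?_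
  have hc' : c ≠ 0 := hc
  let y := c⁻¹ • (v + w) - (c⁻¹ * c⁻¹) • (v * b * w) + (1 - w * v - v * w)
  refine ⟨⟨_, y, ?_, ?_⟩, rfl⟩
  · simp only [y, mul_add, add_mul, mul_sub, sub_mul, mul_smul_comm, smul_mul_assoc, mul_assoc,
      one_mul, mul_one, h1, h1', h2, h3, e1, e2, e3, e4, e4', e5, e5', e6, e6', e7, e8, e8',
      smul_add, smul_sub, smul_smul, smul_zero, mul_zero]
    have a1 : c⁻¹ * c = 1 := inv_mul_cancel₀ hc'
    have a2 : c⁻¹ * (c⁻¹ * c) = c⁻¹ := by rw [a1, mul_one]
    simp only [a1, a2, one_smul, mul_one]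
    abel
  · simp only [y, mul_add, add_mul, mul_sub, sub_mul, mul_smul_comm, smul_mul_assoc, mul_assoc,
      one_mul, mul_one, h1, h1', h2, h3, e1, e2, e3, e4, e4', e5, e5', e6, e6', e7, e8, e8',
      smul_add, smul_sub, smul_smul, smul_zero, mul_zero]
    have a1 : c * c⁻¹ = 1 := mul_inv_cancel₀ hc'
    have a2 : c * (c⁻¹ * c⁻¹) = c⁻¹ := by rw [← mul_assoc, a1, one_mul]
    simp only [a1, a2, one_smul, mul_one]
    abel

end gen

theorem sing_factor {N : Type} [Fintype N] [DecidableEq N] (s : Matrix N N ℂ) (hs : s.det = 0) :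
    ∃ (t : N) (c : Matrix N N ℂ), s = c * (1 - single t t 1) * s := by
  obtain ⟨v, hv, hvs⟩ := Matrix.exists_vecMul_eq_zero_iff.2 hs
  obtain ⟨t, ht⟩ := Function.ne_iff.1 hv
  have ht' : v t ≠ 0 := ht
  refine ⟨t, 1 - vecMulVec (Pi.single t (v t)⁻¹) v, ?_⟩
  have h1 : vecMulVec (Pi.single t (v t)⁻¹) v * single t t (1 : ℂ) = single t t 1 := by
    ext i j
    by_cases hj : j = t
    · subst hj
      rw [mul_single_apply_same, vecMulVec_apply]
      by_cases hi : i = j
      · subst hi; simp [ht']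
      · simp [hi, Ne.symm hi]
    · rw [mul_single_apply_of_ne _ _ _ _ _ hj]
      simp [Ne.symm hj]
  have h2 : vecMulVec (Pi.single t (v t)⁻¹) v * s = 0 := by
    rw [vecMulVec_mul, hvs, vecMulVec_zero]
  rw [mul_sub, mul_one, sub_mul (1 : Matrix N N ℂ), one_mul, h1, sub_self, sub_zero, sub_mul,
    one_mul, h2, sub_zero]

theorem frame_star_mul {N K N' : Type} [Fintype N] [Fintype K] [Fintype N'] [DecidableEq N']
    (ρ : N × K → N') (hρ : Function.Injective ρ) (ι : N → N') (c : N × K → ℝ)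
    (hc : ∀ s, ∑ k, (c (s, k) : ℂ) * (c (s, k) : ℂ) = 1) :
    star (∑ p, (c p : ℂ) • single (ρ p) (ι p.1) (1 : ℂ)) *
      (∑ p, (c p : ℂ) • single (ρ p) (ι p.1) (1 : ℂ)) = ∑ s, single (ι s) (ι s) 1 := by
  classical
  rw [star_sum, Finset.sum_mul, Fintype.sum_prod_type]
  refine Finset.sum_congr rfl fun s _ => ?_
  have : ∀ k, star ((c (s, k) : ℂ) • single (ρ (s, k)) (ι s) (1 : ℂ)) *
      (∑ p, (c p : ℂ) • single (ρ p) (ι p.1) (1 : ℂ)) =
      ((c (s, k) : ℂ) * (c (s, k) : ℂ)) • single (ι s) (ι s) (1 : ℂ) := by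
    intro k
    rw [Finset.mul_sum, Finset.sum_eq_single (s, k)]
    · simp only [star_smul, smul_mul_assoc, mul_smul_comm, star_eq_conjTranspose,
        conjTranspose_single, single_mul_single_same, smul_smul]
      simp
    · intro p _ hp
      simp only [star_smul, smul_mul_assoc, mul_smul_comm, star_eq_conjTranspose,
        conjTranspose_single]
      rw [single_mul_single_of_ne _ _ _ _ (fun h => hp (hρ h).symm)]
      simp
    · intro h; exact absurd (Finset.mem_univ _) h
  simp only [this]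
  rw [← Finset.sum_smul, hc, one_smul]

namespace Stage

variable {S : Stage}

/-- a matrix unit times a function -/
def un (t s : S.N) (h : S.Y → ℝ) (hc : Continuous h)
    (hp : ∀ j y, h (flp' j y) = sgnL j (S.lab t) * sgnL j (S.lab s) * h y) : S.Al :=
  mk' (fun y => (h y : ℂ) • single t s (1 : ℂ))
    ((Complex.continuous_ofReal.comp hc).smul continuous_const)
    (fun j y u w => by
      simp only [Matrix.smul_apply, smul_eq_mul, hp]
      by_cases h1 : t = u ∧ s = w
      · obtain ⟨rfl, rfl⟩ := h1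
        simp [sg]
      · rw [single_apply_of_ne _ _ _ _ _ h1]; simp)

theorem ev_un (t s : S.N) (h : S.Y → ℝ) (hc hp) (y : S.Y) :
    ev y (un t s h hc hp) = (h y : ℂ) • single t s (1 : ℂ) := rfl

end Stage

namespace Par

open Stage

variable {S : Stage} (P : Par S)

theorem const_mem (c : P.Bc → S.Mt) : P.Ψ (1, c) ∈ CU P.next.Al := by
  refine CU.map P.Ψ ?_
  refine CU.of_path (z := (0, -1)) (⋃ b, spectrum ℂ (c b))
    (Set.finite_iUnion fun b => (c b).finite_spectrum) fun z hz => ?_
  simp only [Set.mem_iUnion, not_exists] at hz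
  rw [Prod.isUnit_iff]
  refine ⟨by simp, ?_⟩
  rw [Pi.isUnit_iff]
  intro b
  have := (spectrum.notMem_iff.1 (hz b)).neg
  simpa [Algebra.algebraMap_eq_smul_one, sub_eq_add_neg] using this

variable (x : P.F) (t0 : S.N)

/-- the rows of the partial isometries -/
def ρ (p : S.N × S.Co) : S.N × P.B := (t0, .inr (.inl (x, p)))

theorem ρ_inj : Function.Injective (P.ρ x t0) := by
  intro p p' h
  simpa [ρ] using h

/-- the partial isometries -/
def vv (l : Fin (P.L + 1)) : P.next.Al :=
  ∑ p : S.N × S.Co, un (S := P.next) (P.ρ x t0 p) (p.1, .inl l)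
    (fun y => fr (S.lab p.1) p.2 (P.pr l y)) ((continuous_fr _ _).comp (P.continuous_pr l))
    (fun j y => by
      have h0 : P.next.lab (P.ρ x t0 p) = none := rfl
      rw [h0, sgnL_none, one_mul]
      cases j with
      | none => rw [pr_flp_none, sgnL_lab'_none, one_mul]
      | some j =>
        obtain ⟨l', j⟩ := j
        by_cases hl : l = l'
        · subst hl
          rw [pr_flp_same, fr_flp, sgnL_lab'_same]
        · rw [P.pr_flp_ne hl, P.sgnL_lab'_ne hl, one_mul])

theorem ev_vv (l : Fin (P.L + 1)) (y : P.next.Y) : ev y (P.vv x t0 l) =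
    ∑ p : S.N × S.Co, ((fr (S.lab p.1) p.2 (P.pr l y) : ℝ) : ℂ) •
      single (P.ρ x t0 p) ((p.1, .inl l) : S.N × P.B) (1 : ℂ) := by
  rw [vv, map_sum]; rfl

theorem ev_P (l : Fin (P.L + 1)) (y : P.next.Y) : ev y (P.Ψ (Pi.single l 1, 0)) =
    diagonal fun z : S.N × P.B => if z.2 = .inl l then 1 else 0 := by
  rw [ev_Ψ, BD_apply]
  have : P.blk y (Pi.single l 1, 0) = fun b => diagonal fun _ => if b = .inl l then 1 else 0 := by
    funext b
    cases b with
    | inl l' =>
      by_cases h : l' = l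
      · subst h; simp
      · simp [h]
    | inr b => simp
  rw [this, blockDiagonal_diagonal]

/-- the constant blocks of the projection onto the zero block -/
def ee : P.Bc → S.Mt := fun b => match b with
  | .inl z => if z.1 = x then single t0 t0 1 else 0
  | .inr _ => 0

theorem star_vv_mul (l : Fin (P.L + 1)) :
    star (P.vv x t0 l) * P.vv x t0 l = P.Ψ (Pi.single l 1, 0) := by
  refine ext_ev fun y => ?_
  rw [map_mul, map_star, ev_vv, ev_P,
    frame_star_mul (P.ρ x t0) (P.ρ_inj x t0) (fun s => ((s, .inl l) : S.N × P.B))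
      (fun p => fr (S.lab p.1) p.2 (P.pr l y)) (fun s => sum_fr_sq' (S.lab s) (P.pr l y))]
  ext ⟨s, b⟩ ⟨t, b'⟩
  rw [Matrix.sum_apply, Finset.sum_eq_single s]
  · by_cases h : (s, b) = (t, b')
    · rw [← h, diagonal_apply_eq]
      by_cases hb : b = .inl l
      · subst hb; simp
      · simp [hb, Ne.symm hb]
    · rw [diagonal_apply_ne _ h, single_apply_of_ne]
      rintro ⟨h1, h2⟩
      exact h (h1.symm.trans h2)
  · intro s' _ hs
    rw [single_apply_of_ne]
    rintro ⟨h1, -⟩
    exact hs (congrArg Prod.fst h1)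
  · intro h; exact absurd (Finset.mem_univ _) h

theorem vv_mul_vv (l : Fin (P.L + 1)) : P.vv x t0 l * P.vv x t0 l = 0 := by
  refine ext_ev fun y => ?_
  rw [map_mul, map_zero, ev_vv, Finset.sum_mul]
  refine Finset.sum_eq_zero fun p _ => ?_
  rw [Finset.mul_sum]
  refine Finset.sum_eq_zero fun p' _ => ?_
  rw [smul_mul_assoc, mul_smul_comm, single_mul_single_of_ne _ _ _ _ (by simp [ρ])]
  simp

theorem vv_mul_P (l : Fin (P.L + 1)) : P.vv x t0 l * P.Ψ (Pi.single l 1, 0) = P.vv x t0 l := by
  refine ext_ev fun y => ?_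
  rw [map_mul, ev_vv, ev_P, Finset.sum_mul]
  refine Finset.sum_congr rfl fun p _ => ?_
  rw [smul_mul_assoc]
  congr 1
  ext i j
  rw [mul_diagonal]
  by_cases h : P.ρ x t0 p = i ∧ ((p.1, .inl l) : S.N × P.B) = j
  · obtain ⟨rfl, rfl⟩ := h; simp
  · rw [single_apply_of_ne _ _ _ _ _ h, zero_mul]

theorem ee_mul_vv (l : Fin (P.L + 1)) : P.Ψ (0, P.ee x t0) * P.vv x t0 l = P.vv x t0 l := by
  refine ext_ev fun y => ?_
  rw [map_mul, ev_vv, ev_Ψ, BD_apply, Finset.mul_sum]
  refine Finset.sum_congr rfl fun p _ => ?_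
  rw [mul_smul_comm]
  congr 1
  ext ⟨s, b⟩ j
  by_cases hj : j = (p.1, .inl l)
  · subst hj
    rw [mul_single_apply_same, mul_one, ρ, blockDiagonal_apply]
    by_cases hb : b = .inr (.inl (x, p))
    · subst hb
      by_cases hs : s = t0
      · subst hs; simp [ee]
      · simp [ee, Ne.symm hs]
    · simp [hb, Ne.symm hb]
  · rw [mul_single_apply_of_ne _ _ _ _ _ hj, single_apply_of_ne]
    rintro ⟨-, h2⟩
    exact hj h2.symm

theorem ee_sq : P.ee x t0 * P.ee x t0 = P.ee x t0 := by
  funext b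
  cases b with
  | inl z =>
    by_cases h : z.1 = x <;> simp [ee, h]
  | inr b => simp [ee]

theorem ee_star : star (P.ee x t0) = P.ee x t0 := by
  funext b
  cases b with
  | inl z =>
    by_cases h : z.1 = x <;> simp [ee, h, star_eq_conjTranspose]
  | inr b => simp [ee]

theorem one_block (b : S.Al) (l : Fin (P.L + 1)) :
    P.Ψ (Function.update 1 l b, 1 - P.ee x t0) ∈ CU P.next.Al := by
  have h1 := CU.nilp (b := P.Ψ (Pi.single l b, 0)) (P.vv_mul_vv x t0 l)
    (by rw [star_vv_mul, vv_mul_P])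
    (by rw [star_vv_mul, ← map_mul]; congr 1; simp [← Pi.single_mul])
    (by rw [star_vv_mul, ← map_mul]; congr 1; simp [← Pi.single_mul])
  have h2 := CU.mul h1 (P.const_mem (1 - P.ee x t0))
  have h3 : P.Ψ (1, 1 - P.ee x t0) = 1 - P.Ψ (0, P.ee x t0) := by
    rw [← map_one P.Ψ, ← map_sub]; congr 1; simp [Prod.ext_iff]
  have h4 : star (P.vv x t0 l) * P.Ψ (0, P.ee x t0) = star (P.vv x t0 l) := by
    have := congrArg star (P.ee_mul_vv x t0 l)
    rw [star_mul, ← map_star] at this
    have h6 : star ((0, P.ee x t0) : P.D) = (0, P.ee x t0) := Prod.ext (star_zero _) (P.ee_star x t0)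
    rwa [h6] at this
  have h5 : P.vv x t0 l * star (P.vv x t0 l) * P.Ψ (1, 1 - P.ee x t0) = 0 := by
    rw [h3, mul_assoc, mul_sub, h4, mul_one, sub_self, mul_zero]
  rw [sub_mul, h5, sub_zero, star_vv_mul, ← map_one P.Ψ, ← map_add, ← map_sub, ← map_mul] at h2
  convert h2 using 2
  refine Prod.ext ?_ ?_
  · funext l'
    by_cases h : l' = l
    · subst h; simp
    · simp [h]
  · simp

theorem all_blocks (b : S.Al) : P.Ψ (fun _ => b, 1 - P.ee x t0) ∈ CU P.next.Al := by
  have key : ∀ s : Finset (Fin (P.L + 1)),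
      P.Ψ (fun l => if l ∈ s then b else 1, 1 - P.ee x t0) ∈ CU P.next.Al := by
    intro s
    induction s using Finset.induction_on with
    | empty =>
      simp only [Finset.notMem_empty, if_false]
      exact P.const_mem (1 - P.ee x t0)
    | insert l s hl ih =>
      have := CU.mul (P.one_block x t0 b l) ih
      rw [← map_mul] at this
      convert this using 2
      refine Prod.ext ?_ ?_
      · funext l'
        by_cases h : l' = l
        · subst h; simp [hl]
        · simp [h]
      · simp [mul_sub, sub_mul, ee_sq]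
  simpa using key Finset.univ

/-- a singular point evaluation makes the image close to the invertible elements -/
theorem sr_step (b : S.Al) (s : S.Mt) (hs : s.det = 0) :
    ∃ c ∈ CU P.next.Al, ‖P.φ b - c‖ ≤ ‖ev (P.f x) b - s‖ := by
  obtain ⟨t0, c1, hc1⟩ := sing_factor s hs
  let g : S.Mt → (P.Bc → S.Mt) → P.Bc → S.Mt := fun u w β => match β with
    | .inl z => if z.1 = x then u else w β
    | .inr _ => w β
  refine ⟨P.Ψ (fun _ => b, g s fun β => ev (P.pt β) b), ?_, ?_⟩
  · have := CU.mul (CU.mul (P.const_mem (g c1 1)) (P.all_blocks x t0 b))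
      (P.const_mem (g s fun β => ev (P.pt β) b))
    rw [← map_mul, ← map_mul] at this
    convert this using 2
    refine Prod.ext ?_ ?_
    · simp
    · funext β
      cases β with
      | inl z =>
        by_cases h : z.1 = x
        · simp only [g, ee, h, if_true, Prod.mk_mul_mk, Pi.mul_apply, Pi.sub_apply, Pi.one_apply]
          exact hc1
        · simp [g, ee, h]
      | inr β => simp [g, ee]
  · rw [φ_apply, ← map_sub]
    refine (NonUnitalStarAlgHom.norm_apply_le P.Ψ _).trans ?_
    rw [Prod.norm_def]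
    refine max_le (by simp) ?_
    refine (pi_norm_le_iff_of_nonneg (norm_nonneg _)).2 fun β => ?_
    cases β with
    | inl z =>
      by_cases h : z.1 = x
      · simp [g, h, pt]
      · simp [g, h]
    | inr β => simp [g]

/-- near singularity persists -/
theorem sing_persist (b : S.Al) (y : P.next.Y) (s : S.Mt) (hs : s.det = 0) :
    ∃ s' : P.next.Mt, s'.det = 0 ∧ ‖ev y (P.φ b) - s'‖ ≤ ‖ev (P.pr 0 y) b - s‖ := by
  refine ⟨BD S.N P.B (Function.update (P.blk y (P.dia b)) (.inl 0) s), ?_, ?_⟩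
  · rw [BD_apply, det_blockDiagonal]
    exact Finset.prod_eq_zero (Finset.mem_univ (.inl 0)) (by simpa using hs)
  · rw [φ_apply, ev_Ψ, ← map_sub, norm_BD]
    refine (pi_norm_le_iff_of_nonneg (norm_nonneg _)).2 fun β => ?_
    by_cases h : β = .inl 0
    · subst h; simp
    · simp [h, dia_apply]

end Par

end

end Pool.Agent.H95Z.Vil
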