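import Pool.Agent.H95Z.Vil.BU

/-!
The building blocks: equivariant matrix functions on products of spheres.
-/

namespace Pool.Agent.H95Z.Vil

open Matrix
open scoped Matrix.Norms.L2Operator

set_option linter.unusedSectionVars false

noncomputable section

/-- the combinatorial data of a building block -/
structure Stage where
  J : Type
  [fJ : Fintype J]
  [dJ : DecidableEq J]
  d : J → ℕ
  N : Type
  [fN : Fintype N]
  [dN : DecidableEq N]
  lab : N → Option J
  o : N → Bool

attribute [instance] Stage.fJ Stage.dJ Stage.fN Stage.dN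

theorem sgnL_sq {J : Type} [DecidableEq J] (j : J) (l : Option J) : sgnL j l * sgnL j l = 1 := by
  unfold sgnL; split_ifs <;> simp

theorem sgnL_none {J : Type} [DecidableEq J] (j : J) : sgnL j none = 1 := by simp [sgnL]

theorem continuous_flp' {J : Type} [DecidableEq J] {d : J → ℕ} (j : J) :
    Continuous (flp' j : Sp d → Sp d) :=
  continuous_id.update j (continuous_sneg.comp (continuous_apply j))

namespace Stage

variable (S : Stage)

/-- the base space -/
abbrev Y : Type := Sp S.d

/-- the fibre -/
abbrev Mt : Type := Matrix S.N S.N ℂ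

/-- signs -/
def sg (j : S.J) (s : S.N) : ℂ := (sgnL j (S.lab s) : ℂ)

theorem sg_sq (j : S.J) (s : S.N) : S.sg j s * S.sg j s = 1 := by
  unfold sg; rw [← Complex.ofReal_mul, sgnL_sq]; simp

/-- the sign matrices -/
def U (j : S.J) : S.Mt := diagonal (S.sg j)

theorem U_sq (j : S.J) : S.U j * S.U j = 1 := by
  unfold U
  rw [diagonal_mul_diagonal]
  simp [sg_sq]

theorem star_U (j : S.J) : star (S.U j) = S.U j := by
  unfold U
  rw [star_eq_conjTranspose, diagonal_conjTranspose]
  congr 1
  funext s
  simp [sg]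

theorem U_apply (j : S.J) (x : S.Mt) (s t : S.N) :
    (S.U j * x * S.U j) s t = S.sg j s * S.sg j t * x s t := by
  unfold U
  rw [mul_diagonal, diagonal_mul]; ring

/-- the equivariant functions -/
def alg : StarSubalgebra ℂ C(S.Y, S.Mt) where
  carrier := {a | ∀ j y, a (flp' j y) = S.U j * a y * S.U j}
  mul_mem' := by
    intro a b ha hb j y
    rw [ContinuousMap.mul_apply, ContinuousMap.mul_apply, ha j y, hb j y]
    calc S.U j * a y * S.U j * (S.U j * b y * S.U j)
        = S.U j * a y * (S.U j * S.U j) * b y * S.U j := by simp only [mul_assoc]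
      _ = _ := by rw [U_sq]; simp only [mul_assoc, one_mul]
  add_mem' := by
    intro a b ha hb j y
    rw [ContinuousMap.add_apply, ContinuousMap.add_apply, ha j y, hb j y, mul_add, add_mul]
  algebraMap_mem' := by
    intro c j y
    simp only [Algebra.algebraMap_eq_smul_one, ContinuousMap.smul_apply, ContinuousMap.one_apply,
      mul_smul_comm, smul_mul_assoc, mul_one, U_sq]
  star_mem' := by
    intro a ha j y
    rw [ContinuousMap.star_apply, ContinuousMap.star_apply, ha j y, star_mul, star_mul, star_U,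
      mul_assoc]

theorem alg_closed : IsClosed (S.alg : Set C(S.Y, S.Mt)) := by
  have : (S.alg : Set C(S.Y, S.Mt)) =
      ⋂ j, ⋂ y, {a : C(S.Y, S.Mt) | a (flp' j y) = S.U j * a y * S.U j} := by
    ext a
    simp only [Set.mem_iInter]
    rfl
  rw [this]
  refine isClosed_iInter fun j => isClosed_iInter fun y => isClosed_eq ?_ ?_
  · exact continuous_eval_const _
  · exact (continuous_const.mul (continuous_eval_const _)).mul continuous_const

/-- the building block -/
def Al : Type := ↥S.alg

instance : CStarAlgebra S.Al :=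
  haveI := S.alg_closed
  inferInstanceAs (CStarAlgebra ↥S.alg)

variable {S}

/-- the underlying function -/
def fn (a : S.Al) : C(S.Y, S.Mt) := Subtype.val a

/-- evaluation -/
def ev (y : S.Y) : S.Al →⋆ₐ[ℂ] S.Mt where
  toFun a := fn a y
  map_one' := rfl
  map_mul' _ _ := rfl
  map_zero' := rfl
  map_add' _ _ := rfl
  commutes' _ := rfl
  map_star' _ := rfl

theorem ext_ev {a b : S.Al} (h : ∀ y, ev y a = ev y b) : a = b :=
  Subtype.ext (ContinuousMap.ext h)

theorem continuous_ev (a : S.Al) : Continuous fun y => ev y a := (fn a).continuous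

theorem ev_flp (a : S.Al) (j : S.J) (y : S.Y) : ev (flp' j y) a = S.U j * ev y a * S.U j :=
  (Subtype.property a : fn a ∈ S.alg) j y

theorem ev_flp_apply (a : S.Al) (j : S.J) (y : S.Y) (s t : S.N) :
    ev (flp' j y) a s t = S.sg j s * S.sg j t * ev y a s t := by
  rw [ev_flp, U_apply]

theorem norm_eq (a : S.Al) : ‖a‖ = ‖fn a‖ := rfl

theorem norm_ev_le (y : S.Y) (a : S.Al) : ‖ev y a‖ ≤ ‖a‖ := (fn a).norm_coe_le_norm y

theorem exists_lt_norm_ev (a : S.Al) {κ : ℝ} (hκ : 0 ≤ κ) (h : κ < ‖a‖) : ∃ y, κ < ‖ev y a‖ := by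
  by_contra hcon
  push Not at hcon
  exact absurd (((fn a).norm_le hκ).2 hcon) (not_le.2 h)

/-- an element from a matrix function -/
def mk' (F : S.Y → S.Mt) (hc : Continuous F)
    (he : ∀ j y s t, F (flp' j y) s t = S.sg j s * S.sg j t * F y s t) : S.Al :=
  ⟨⟨F, hc⟩, fun j y => by
    ext s t
    rw [U_apply]
    exact he j y s t⟩

@[simp] theorem ev_mk' (F : S.Y → S.Mt) (hc he) (y : S.Y) : ev y (mk' F hc he) = F y := rfl

/-- an element is invertible if all its values are -/
theorem isUnit_of_ev (a : S.Al) (h : ∀ y, (ev y a).det ≠ 0) : IsUnit a := by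
  have hu : ∀ y, IsUnit (ev y a).det := fun y => isUnit_iff_ne_zero.2 (h y)
  have hc : Continuous fun y => (ev y a)⁻¹ := by
    have : (fun y => (ev y a)⁻¹) = fun y => ((ev y a).det)⁻¹ • (ev y a).adjugate := by
      funext y
      rw [Matrix.inv_def, Ring.inverse_eq_inv']
    rw [this]
    exact ((continuous_ev a).matrix_det.inv₀ h).smul (continuous_ev a).matrix_adjugate
  let b : S.Al := mk' (fun y => (ev y a)⁻¹) hc (fun j y s t => by
    rw [← U_apply]
    suffices hh : (ev (flp' j y) a)⁻¹ = S.U j * (ev y a)⁻¹ * S.U j by rw [hh]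
    refine Matrix.inv_eq_right_inv ?_
    rw [ev_flp]
    calc S.U j * ev y a * S.U j * (S.U j * (ev y a)⁻¹ * S.U j)
        = S.U j * (ev y a * (S.U j * S.U j) * (ev y a)⁻¹) * S.U j := by simp only [mul_assoc]
      _ = 1 := by rw [U_sq, mul_one, Matrix.mul_nonsing_inv _ (hu y), mul_one, U_sq])
  refine ⟨⟨a, b, ext_ev fun y => ?_, ext_ev fun y => ?_⟩, rfl⟩
  · rw [map_mul, map_one]; exact Matrix.mul_nonsing_inv _ (hu y)
  · rw [map_mul, map_one]; exact Matrix.nonsing_inv_mul _ (hu y)

/-- constant diagonal elements -/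
def dg (v : S.N → ℂ) : S.Al := mk' (fun _ => diagonal v) continuous_const (fun j y s t => by
  by_cases h : s = t
  · subst h; rw [sg_sq, one_mul]
  · rw [diagonal_apply_ne _ h, mul_zero])

@[simp] theorem ev_dg (v : S.N → ℂ) (y : S.Y) : ev y (dg v) = diagonal v := rfl

/-- the diagonal matrix units -/
def E (s : S.N) : S.Al := dg (Pi.single s 1)

theorem ev_E (s : S.N) (y : S.Y) : ev y (E s) = single s s 1 := by
  rw [E, ev_dg, diagonal_single]

theorem sum_E : ∑ s : S.N, E s = 1 := by
  refine ext_ev fun y => ?_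
  rw [map_sum, map_one]
  simp only [ev_E]
  exact Matrix.sum_single_one

variable (S)

/-- the index set of the frames -/
abbrev Co : Type := Option (Σ j : S.J, Fin (S.d j + 1))

variable {S}

/-- the square of the Euclidean norm of a coordinate -/
def nq (j : S.J) (y : S.Y) : ℝ := ∑ i, ((y j).1 i) ^ 2

theorem nq_pos (j : S.J) (y : S.Y) : 0 < nq j y := by
  have h1 : ∑ i, |(y j).1 i| = 1 := (y j).2
  have h2 : ∃ i, (y j).1 i ≠ 0 := by
    by_contra h
    push Not at h
    simp [h] at h1
  obtain ⟨i, hi⟩ := h2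
  exact Finset.sum_pos' (fun _ _ => sq_nonneg _) ⟨i, Finset.mem_univ _, by positivity⟩

theorem continuous_coord (j : S.J) (i : Fin (S.d j + 1)) : Continuous fun y : S.Y => (y j).1 i :=
  (continuous_apply i).comp (continuous_subtype_val.comp (continuous_apply j))

theorem continuous_nq (j : S.J) : Continuous (nq j : S.Y → ℝ) :=
  continuous_finsetSum _ fun i _ => (continuous_coord j i).pow 2

theorem coord_flp (j j' : S.J) (i : Fin (S.d j' + 1)) (y : S.Y) :
    ((flp' j y) j').1 i = sgnL j (some j') * (y j').1 i := by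
  by_cases h : j' = j
  · subst h; simp [flp', sneg, sgnL]
  · simp [flp', sgnL, h]

theorem nq_flp (j j' : S.J) (y : S.Y) : nq j' (flp' j y) = nq j' y := by
  unfold nq
  refine Finset.sum_congr rfl fun i _ => ?_
  rw [coord_flp, mul_pow, sq (sgnL _ _), sgnL_sq, one_mul]

/-- the frames: unit vector fields with the parity of a label -/
def fr : Option S.J → S.Co → S.Y → ℝ
  | none, none, _ => 1
  | none, some _, _ => 0
  | some _, none, _ => 0
  | some j, some k, y => if k.1 = j then (y k.1).1 k.2 / √(nq k.1 y) else 0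

theorem continuous_fr (l : Option S.J) (k : S.Co) : Continuous (fr l k) := by
  cases l <;> cases k
  · exact continuous_const
  · exact continuous_const
  · exact continuous_const
  · rename_i j k
    by_cases h : k.1 = j
    · have : fr (some j) (some k) = fun y => (y k.1).1 k.2 / √(nq k.1 y) := by
        funext y; simp [fr, h]
      rw [this]
      exact (continuous_coord _ _).div (continuous_nq _).sqrt
        fun y => (Real.sqrt_pos.2 (nq_pos _ y)).ne'
    · have : fr (some j) (some k) = fun _ => 0 := by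
        funext y; simp [fr, h]
      rw [this]; exact continuous_const

theorem fr_flp (l : Option S.J) (k : S.Co) (j : S.J) (y : S.Y) :
    fr l k (flp' j y) = sgnL j l * fr l k y := by
  cases l <;> cases k
  · simp [fr, sgnL]
  · simp [fr]
  · simp [fr]
  · rename_i j' k
    by_cases h : k.1 = j'
    · simp only [fr, if_pos h]
      rw [coord_flp, nq_flp, mul_div_assoc, ← h]
    · simp [fr, h]

theorem sum_fr_sq (l : Option S.J) (y : S.Y) : ∑ k, fr l k y ^ 2 = 1 := by
  rw [Fintype.sum_option]
  cases l with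
  | none => simp [fr]
  | some j =>
    rw [Fintype.sum_sigma, Finset.sum_eq_single j]
    · simp only [fr, if_true, div_pow]
      rw [← Finset.sum_div, Real.sq_sqrt (nq_pos j y).le]
      have := (nq_pos j y).ne'
      simp only [ne_eq, OfNat.ofNat_ne_zero, not_false_eq_true, zero_pow, zero_add]
      exact div_self this
    · intro j' _ h
      simp [fr, h]
    · intro h; exact absurd (Finset.mem_univ _) h

theorem sum_fr_sq' (l : Option S.J) (y : S.Y) :
    ∑ k, ((fr l k y : ℝ) : ℂ) * ((fr l k y : ℝ) : ℂ) = 1 := by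
  have h := congrArg (fun x : ℝ => (x : ℂ)) (sum_fr_sq l y)
  simp only [Complex.ofReal_sum, Complex.ofReal_one, sq] at h
  simpa using h

/-- a column supported on trivial labels, times a frame function -/
def colE (w : S.N → ℂ) (hw : ∀ t, w t ≠ 0 → S.lab t = none) (s : S.N) (k : S.Co) : S.Al :=
  mk' (fun y => ((fr (S.lab s) k y : ℝ) : ℂ) • vecMulVec w (Pi.single s 1))
    ((Complex.continuous_ofReal.comp (continuous_fr _ _)).smul continuous_const)
    (fun j y t u => by
      simp only [Matrix.smul_apply, vecMulVec_apply, smul_eq_mul, fr_flp, Complex.ofReal_mul]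
      by_cases h1 : w t = 0
      · simp [h1]
      by_cases h2 : u = s
      · subst h2
        simp only [sg, hw t h1, sgnL_none]
        simp [mul_assoc]
      · simp [h2])

theorem ev_colE (w : S.N → ℂ) (hw) (s : S.N) (k : S.Co) (y : S.Y) :
    ev y (colE w hw s k) = ((fr (S.lab s) k y : ℝ) : ℂ) • vecMulVec w (Pi.single s 1) := rfl

theorem col_conj (w : S.N → ℂ) (s : S.N) (X : S.Mt) :
    star (vecMulVec w (Pi.single s (1 : ℂ))) * X * vecMulVec w (Pi.single s 1) =
      (star w ⬝ᵥ X *ᵥ w) • single s s 1 := by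
  rw [star_eq_conjTranspose, conjTranspose_vecMulVec, mul_assoc, mul_vecMulVec,
    vecMulVec_mul_vecMulVec]
  ext t u
  by_cases h1 : t = s
  · by_cases h2 : u = s
    · subst h1; subst h2; simp [vecMulVec_apply]
    · subst h1; simp [vecMulVec_apply, h2, Ne.symm h2]
  · simp [vecMulVec_apply, h1, Ne.symm h1]

theorem sum_colE_conj (w : S.N → ℂ) (hw) (z : S.Al) (c : ℂ)
    (hz : ∀ y, star w ⬝ᵥ ev y z *ᵥ w = c) (s : S.N) :
    ∑ k, star (colE w hw s k) * z * colE w hw s k = c • E s := by
  refine ext_ev fun y => ?_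
  rw [map_sum, map_smul, ev_E]
  simp only [map_mul, map_star, ev_colE, star_smul, smul_mul_assoc, mul_smul_comm, col_conj, hz,
    smul_smul]
  rw [← Finset.sum_smul]
  congr 1
  simp only [RCLike.star_def, Complex.conj_ofReal, ← mul_assoc]
  rw [← Finset.sum_mul, sum_fr_sq', one_mul]

end Stage

end

end Pool.Agent.H95Z.Vil
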