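import Pool.Agent.H95Z.Vil.Stage

/-!
Traces on the building blocks, and the failure of comparison.
-/

namespace Pool.Agent.H95Z.Vil

open Matrix
open scoped Matrix.Norms.L2Operator

set_option linter.unusedSectionVars false

noncomputable section

/-- the properties of a quasitrace which are used below -/
structure WQT {B : Type*} [CStarAlgebra B] (τ : B → ℂ) : Prop where
  tracial : ∀ x : B, τ (star x * x) = τ (x * star x)
  zero : τ 0 = 0
  add : ∀ a b : B, IsSelfAdjoint a → IsSelfAdjoint b → Commute a b → τ (a + b) = τ a + τ b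

theorem WQT.comp {B C : Type*} [CStarAlgebra B] [CStarAlgebra C] {τ : C → ℂ} (h : WQT τ)
    (ψ : B →⋆ₐ[ℂ] C) : WQT (fun b => τ (ψ b)) where
  tracial x := by simp only [map_mul, map_star]; exact h.tracial _
  zero := by simp only [map_zero]; exact h.zero
  add a b ha hb hab := by
    simp only [map_add]
    exact h.add _ _ (ha.map ψ) (hb.map ψ) (hab.map ψ)

theorem WQT.sum {B : Type*} [CStarAlgebra B] {τ : B → ℂ} (h : WQT τ) {ι : Type*} (f : ι → B)
    (hf : ∀ i, IsSelfAdjoint (f i)) (hc : ∀ i j, Commute (f i) (f j)) (s : Finset ι) :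
    τ (∑ i ∈ s, f i) = ∑ i ∈ s, τ (f i) := by
  classical
  induction s using Finset.induction_on with
  | empty => simpa using h.zero
  | insert i s hi ih =>
    rw [Finset.sum_insert hi, Finset.sum_insert hi, ← ih]
    exact h.add _ _ (hf i) (isSelfAdjoint_sum s fun j _ => hf j)
      (Commute.sum_right _ _ _ fun j _ => hc i j)

theorem WQT.of_linear {B : Type*} [CStarAlgebra B] (τ : B →ₗ[ℂ] ℂ)
    (h : ∀ x y, τ (x * y) = τ (y * x)) : WQT τ where
  tracial _ := h _ _
  zero := map_zero τ
  add a b _ _ _ := map_add τ a b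

namespace Stage

variable {S : Stage}

theorem single_supp {t : S.N} (ht : S.lab t = none) :
    ∀ u, (Pi.single t (1 : ℂ) : S.N → ℂ) u ≠ 0 → S.lab u = none := by
  intro u hu
  by_cases h : u = t
  · rw [h, ht]
  · simp [h] at hu

theorem ev_colE_single {t : S.N} (ht : S.lab t = none) (s : S.N) (k : S.Co) (y : S.Y) :
    ev y (colE (Pi.single t 1) (single_supp ht) s k) =
      ((fr (S.lab s) k y : ℝ) : ℂ) • single t s 1 := by
  rw [ev_colE, single_eq_single_vecMulVec_single]

theorem E_sa (s : S.N) : IsSelfAdjoint (E s) := by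
  refine ext_ev fun y => ?_
  rw [map_star, ev_E, star_eq_conjTranspose, conjTranspose_single, star_one]

theorem dg_comm (v w : S.N → ℂ) : Commute (dg v) (dg w) := by
  refine ext_ev fun y => ?_
  simp only [map_mul, ev_dg, diagonal_mul_diagonal, mul_comm]

theorem wqt_E {τ : S.Al → ℂ} (h : WQT τ) {t : S.N} (ht : S.lab t = none) (s : S.N) :
    τ (E s) = τ (E t) := by
  let w : S.Co → S.Al := fun k => colE (Pi.single t 1) (single_supp ht) s k
  have h1 : ∀ k y, ev y (star (w k) * w k) =
      (((fr (S.lab s) k y : ℝ) : ℂ) * ((fr (S.lab s) k y : ℝ) : ℂ)) • single s s (1 : ℂ) := by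
    intro k y
    simp only [w, map_mul, map_star, ev_colE_single ht, star_smul, smul_mul_assoc, mul_smul_comm,
      star_eq_conjTranspose, conjTranspose_single, single_mul_single_same, smul_smul]
    simp
  have h2 : ∀ k y, ev y (w k * star (w k)) =
      (((fr (S.lab s) k y : ℝ) : ℂ) * ((fr (S.lab s) k y : ℝ) : ℂ)) • single t t (1 : ℂ) := by
    intro k y
    simp only [w, map_mul, map_star, ev_colE_single ht, star_smul, smul_mul_assoc, mul_smul_comm,
      star_eq_conjTranspose, conjTranspose_single, single_mul_single_same, smul_smul]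
    simp
  have e1 : E s = ∑ k, star (w k) * w k := by
    refine ext_ev fun y => ?_
    rw [map_sum, ev_E]
    simp only [h1]
    rw [← Finset.sum_smul, sum_fr_sq', one_smul]
  have e2 : E t = ∑ k, w k * star (w k) := by
    refine ext_ev fun y => ?_
    rw [map_sum, ev_E]
    simp only [h2]
    rw [← Finset.sum_smul, sum_fr_sq', one_smul]
  rw [e1, e2, h.sum _ (fun k => IsSelfAdjoint.star_mul_self _),
    h.sum _ (fun k => IsSelfAdjoint.mul_star_self _)]
  · exact Finset.sum_congr rfl fun k _ => h.tracial _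
  · intro k k'
    refine ext_ev fun y => ?_
    rw [map_mul, map_mul _ (w k' * star (w k')), h2, h2]
    simp only [smul_mul_assoc, mul_smul_comm, smul_smul, mul_comm]
  · intro k k'
    refine ext_ev fun y => ?_
    rw [map_mul, map_mul _ (star (w k') * w k'), h1, h1]
    simp only [smul_mul_assoc, mul_smul_comm, smul_smul, mul_comm]

theorem wqt_E_val {τ : S.Al → ℂ} (h : WQT τ) (h1 : τ 1 = 1) {t : S.N} (ht : S.lab t = none)
    (s : S.N) : τ (E s) = (Fintype.card S.N : ℂ)⁻¹ := by
  have h2 : τ (∑ u : S.N, E u) = ∑ u : S.N, τ (E u) :=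
    h.sum _ E_sa (fun _ _ => dg_comm _ _) _
  rw [sum_E, h1] at h2
  simp only [wqt_E h ht, Finset.sum_const, Finset.card_univ, nsmul_eq_mul] at h2
  rw [wqt_E h ht]
  exact eq_inv_of_mul_eq_one_right h2.symm

theorem trace_const (τ : S.Al →ₗ[ℂ] ℂ) (h : ∀ x y, τ (x * y) = τ (y * x)) (h1 : τ 1 = 1)
    {t : S.N} (ht : S.lab t = none) (z : S.Al) (X : S.Mt) (hz : ∀ y, ev y z = X) :
    τ z = X.trace * (Fintype.card S.N : ℂ)⁻¹ := by
  have hE : ∀ s : S.N, E s * E s = E s := fun s => ext_ev fun y => by
    rw [map_mul, ev_E, single_mul_single_same, mul_one]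
  have h2 : ∀ s : S.N, E s * z * E s = X s s • E s := fun s => ext_ev fun y => by
    rw [map_mul, map_mul, map_smul, ev_E, hz, single_mul_mul_single]
    simp
  calc τ z = τ ((∑ s : S.N, E s) * z) := by rw [sum_E, one_mul]
    _ = ∑ s : S.N, τ (E s * z * E s) := by
      rw [Finset.sum_mul, map_sum]
      refine Finset.sum_congr rfl fun s _ => ?_
      rw [h (E s * z), ← mul_assoc, hE]
    _ = ∑ s : S.N, X s s * (Fintype.card S.N : ℂ)⁻¹ := by
      refine Finset.sum_congr rfl fun s _ => ?_
      rw [h2, map_smul, smul_eq_mul, wqt_E_val (WQT.of_linear τ h) h1 ht]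
    _ = _ := by rw [← Finset.sum_mul]; rfl

variable (S)

/-- the invariants of the construction -/
structure Good : Prop where
  hd : ∀ j, 1 ≤ S.d j
  h1 : ∀ j, 2 * Nat.card {t // S.lab t = some j} ≤ S.d j
  h0 : Nat.card {t // S.o t = false ∧ S.lab t = none} <
    Nat.card {s // S.o s = true ∧ S.lab s = none}

/-- the small projection -/
def pp : S.Al := dg fun s => if S.o s then 1 else 0

/-- the big projection -/
def qq : S.Al := dg fun s => if S.o s then 0 else 1

variable {S}

theorem Good.exists_none (h : S.Good) : ∃ t, S.lab t = none := by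
  have h0 := h.h0
  have : Nonempty {s // S.o s = true ∧ S.lab s = none} := by
    by_contra hne
    rw [not_nonempty_iff] at hne
    rw [Nat.card_of_isEmpty (α := {s // S.o s = true ∧ S.lab s = none})] at h0
    omega
  obtain ⟨s, -, hs⟩ := this
  exact ⟨s, hs⟩

theorem Good.not_le (h : S.Good) (w : S.Al) : ¬ ‖w * qq S * star w - pp S‖ < 1 := by
  intro hw
  let T := {t : S.N // S.o t = false}
  let C := {s : S.N // S.o s = true ∧ S.lab s = none}
  let M : S.Y → Matrix T C ℂ := fun y => Matrix.of fun t c => ev y (star w) t.1 c.1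
  have hM : Continuous M := by
    refine continuous_pi fun t => continuous_pi fun c => ?_
    exact (continuous_ev (star w)).matrix_elem t.1 c.1
  obtain ⟨y, x, hx, hMx⟩ := exists_kernel S.d h.hd (fun t : T => S.lab t.1) M hM
    (fun y j t c => by
      simp only [M, of_apply]
      rw [ev_flp_apply]
      simp [sg, c.2.2, sgnL_none])
    (by
      rw [Nat.card_congr (Equiv.subtypeSubtypeEquivSubtypeInter (fun t => S.o t = false)
        (fun t => S.lab t = none))]
      exact h.h0)
    (fun j => by
      refine le_trans (Nat.mul_le_mul_left 2 ?_) (h.h1 j)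
      exact Nat.card_le_card_of_injective (fun t => ⟨t.1.1, t.2⟩)
        (fun t t' htt => Subtype.ext (Subtype.ext (by simpa using htt))))
  classical
  let x' : S.N → ℂ := fun s => if hs : S.o s = true ∧ S.lab s = none then x ⟨s, hs⟩ else 0
  have hx' : x' ≠ 0 := by
    intro h0
    apply hx
    funext c
    have := congrFun h0 c.1
    simp only [x', dif_pos c.2] at this
    exact this
  have hp : ev y (pp S) *ᵥ x' = x' := by
    funext s
    rw [pp, ev_dg, mulVec_diagonal]
    by_cases hs : S.o s = true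
    · simp [hs]
    · simp [x', hs]
  have hq : ev y (qq S) *ᵥ (ev y (star w) *ᵥ x') = 0 := by
    funext t
    rw [qq, ev_dg, mulVec_diagonal]
    by_cases ht : S.o t = true
    · simp [ht]
    · have ht' : S.o t = false := by simpa using ht
      have h3 := congrFun hMx ⟨t, ht'⟩
      have h4 : (ev y (star w) *ᵥ x') t = (M y *ᵥ x) ⟨t, ht'⟩ := by
        simp only [mulVec, dotProduct, M, of_apply]
        symm
        refine Fintype.sum_of_injective (fun c : C => c.1) Subtype.val_injective _ _ ?_ ?_
        · intro s hs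
          have hs' : ¬ (S.o s = true ∧ S.lab s = none) := fun h' => hs ⟨⟨s, h'⟩, rfl⟩
          simp only [x', dif_neg hs', mul_zero]
        · intro c
          simp only [x', dif_pos c.2]
          rfl
      rw [h4, h3]; simp
  have hz : ev y (w * qq S * star w - pp S) *ᵥ x' = -x' := by
    rw [map_sub, map_mul, map_mul, sub_mulVec, ← mulVec_mulVec, ← mulVec_mulVec, hq, mulVec_zero,
      hp, zero_sub]
  have h5 := l2_opNorm_mulVec (ev y (w * qq S * star w - pp S)) (WithLp.toLp 2 x')
  have h6 : ‖(WithLp.toLp 2 x' : EuclideanSpace ℂ S.N)‖ ≠ 0 := by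
    rw [norm_ne_zero_iff]
    intro h0
    exact hx' (congrArg WithLp.ofLp h0)
  have h7 := (norm_ev_le y _).trans_lt hw
  have h8 : ‖(EuclideanSpace.equiv S.N ℂ).symm (ev y (w * qq S * star w - pp S) *ᵥ
      (WithLp.toLp 2 x' : EuclideanSpace ℂ S.N).ofLp)‖ =
      ‖(WithLp.toLp 2 x' : EuclideanSpace ℂ S.N)‖ := by
    rw [WithLp.ofLp_toLp, hz, ← norm_neg]
    congr 1
    ext i
    simp
  rw [h8] at h5
  have h9 : 0 < ‖(WithLp.toLp 2 x' : EuclideanSpace ℂ S.N)‖ :=
    lt_of_le_of_ne (norm_nonneg _) h6.symm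
  nlinarith

end Stage

end

end Pool.Agent.H95Z.Vil
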