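import Pool.Agent.H95Z.Vil.StageB

/-!
The connecting maps.
-/

namespace Pool.Agent.H95Z.Vil

open Matrix
open scoped Matrix.Norms.L2Operator

set_option linter.unusedSectionVars false

noncomputable section

/-- block diagonal matrices -/
def BD (N B : Type) [Fintype N] [DecidableEq N] [Fintype B] [DecidableEq B] :
    (B → Matrix N N ℂ) →⋆ₐ[ℂ] Matrix (N × B) (N × B) ℂ :=
  { blockDiagonalRingHom N B ℂ with
    commutes' := fun c => by
      simp only [Algebra.algebraMap_eq_smul_one]
      change blockDiagonal (c • (1 : B → Matrix N N ℂ)) = _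
      rw [blockDiagonal_smul, blockDiagonal_one]
    map_star' := fun x => by
      change blockDiagonal (star x) = star (blockDiagonal x)
      rw [star_eq_conjTranspose, blockDiagonal_conjTranspose]
      rfl }

section BD

variable {N B : Type} [Fintype N] [DecidableEq N] [Fintype B] [DecidableEq B]

theorem BD_apply (x : B → Matrix N N ℂ) : BD N B x = blockDiagonal x := rfl

theorem BD_inj : Function.Injective (BD N B) := blockDiagonal_injective

theorem norm_BD (x : B → Matrix N N ℂ) : ‖BD N B x‖ = ‖x‖ :=
  NonUnitalStarAlgHom.norm_map _ BD_inj x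

end BD

/-- a family of homomorphisms to the fibre gives a homomorphism to the building block -/
def Stage.liftHom {S : Stage} {D : Type} [CStarAlgebra D] (H : S.Y → D →⋆ₐ[ℂ] S.Mt)
    (hc : ∀ x, Continuous fun y => H y x)
    (he : ∀ x j y s t, H (flp' j y) x s t = S.sg j s * S.sg j t * H y x s t) : D →⋆ₐ[ℂ] S.Al where
  toFun x := Stage.mk' (fun y => H y x) (hc x) (he x)
  map_one' := Stage.ext_ev fun y => by rw [Stage.ev_mk', map_one, map_one]
  map_mul' a b := Stage.ext_ev fun y => by simp only [Stage.ev_mk', map_mul]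
  map_zero' := Stage.ext_ev fun y => by rw [Stage.ev_mk', map_zero, map_zero]
  map_add' a b := Stage.ext_ev fun y => by simp only [Stage.ev_mk', map_add]
  commutes' c := Stage.ext_ev fun y => by
    rw [Stage.ev_mk', AlgHomClass.commutes, AlgHomClass.commutes]
  map_star' a := Stage.ext_ev fun y => by simp only [Stage.ev_mk', map_star]

theorem Stage.ev_liftHom {S : Stage} {D : Type} [CStarAlgebra D] (H : S.Y → D →⋆ₐ[ℂ] S.Mt)
    (hc he) (x : D) (y : S.Y) : Stage.ev y (Stage.liftHom H hc he x) = H y x := rfl

/-- the parameters of a connecting map -/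
structure Par (S : Stage) where
  L : ℕ
  F : Type
  [fF : Fintype F]
  [dF : DecidableEq F]
  f : F → S.Y
  m : ℕ
  y0 : S.Y

attribute [instance] Par.fF Par.dF

namespace Par

open Stage

variable {S : Stage} (P : Par S)

/-- the constant blocks -/
abbrev Bc : Type := (P.F × (S.N × S.Co)) ⊕ Fin P.m

instance : DecidableEq P.Bc := Classical.decEq _

/-- all blocks -/
abbrev B : Type := Fin (P.L + 1) ⊕ P.Bc

instance : DecidableEq P.B := Classical.decEq _

/-- the new dimensions -/
def d' : Option (Fin (P.L + 1) × S.J) → ℕ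
  | none => 2 * (Fintype.card S.N * P.m) + 1
  | some x => S.d x.2

/-- the new labels -/
def lab' : S.N × P.B → Option (Option (Fin (P.L + 1) × S.J))
  | (s, .inl l) => (S.lab s).map fun j => some (l, j)
  | (_, .inr (.inl _)) => none
  | (_, .inr (.inr _)) => some none

/-- the next building block -/
@[reducible] def next : Stage where
  J := Option (Fin (P.L + 1) × S.J)
  d := P.d'
  N := S.N × P.B
  lab := P.lab'
  o := fun x => S.o x.1

/-- the coordinate projections -/
def pr (l : Fin (P.L + 1)) (y : P.next.Y) : S.Y := fun j => y (some (l, j))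

theorem continuous_pr (l : Fin (P.L + 1)) : Continuous (P.pr l) :=
  continuous_pi fun j => continuous_apply (A := fun j' => Sph (P.d' j')) (some (l, j))

theorem pr_flp_none (l : Fin (P.L + 1)) (y : P.next.Y) : P.pr l (flp' none y) = P.pr l y := by
  funext j
  simp [pr, flp']

theorem pr_flp_same (l : Fin (P.L + 1)) (j : S.J) (y : P.next.Y) :
    P.pr l (flp' (some (l, j)) y) = flp' j (P.pr l y) := by
  funext j'
  by_cases h : j' = j
  · subst h
    simp only [pr, flp', Function.update_self]
    rfl
  · have h' : (some (l, j') : Option (Fin (P.L + 1) × S.J)) ≠ some (l, j) := by simpa using h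
    simp only [pr, flp', Function.update_of_ne h, Function.update_of_ne h']

theorem pr_flp_ne {l l' : Fin (P.L + 1)} (h : l ≠ l') (j : S.J) (y : P.next.Y) :
    P.pr l (flp' (some (l', j)) y) = P.pr l y := by
  funext j'
  have h' : (some (l, j') : Option (Fin (P.L + 1) × S.J)) ≠ some (l', j) := by simp [h]
  simp only [pr, flp', Function.update_of_ne h']

theorem sgnL_lab'_none (l : Fin (P.L + 1)) (s : S.N) :
    sgnL none (P.lab' (s, .inl l)) = 1 := by
  cases h : S.lab s <;> simp [lab', sgnL, h]

theorem sgnL_lab'_same (l : Fin (P.L + 1)) (j : S.J) (s : S.N) :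
    sgnL (some (l, j)) (P.lab' (s, .inl l)) = sgnL j (S.lab s) := by
  cases h : S.lab s <;> simp [lab', sgnL, h]

theorem sgnL_lab'_ne {l l' : Fin (P.L + 1)} (hl : l ≠ l') (j : S.J) (s : S.N) :
    sgnL (some (l', j)) (P.lab' (s, .inl l)) = 1 := by
  cases h : S.lab s <;> simp [lab', sgnL, h, hl]

theorem pr_surj (l : Fin (P.L + 1)) (y : S.Y) : ∃ y', P.pr l y' = y :=
  ⟨fun j => match j with
    | none => Classical.arbitrary _
    | some x => y x.2, rfl⟩

theorem dist_pr (l : Fin (P.L + 1)) (y y' : P.next.Y) : dist (P.pr l y) (P.pr l y') ≤ dist y y' :=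
  (dist_pi_le_iff dist_nonneg).2 fun j => dist_le_pi_dist y y' (some (l, j))

/-- the domain of the general connecting map -/
abbrev D : Type := (Fin (P.L + 1) → S.Al) × (P.Bc → S.Mt)

/-- the blocks at a point -/
def blk (y : P.next.Y) : P.D →⋆ₐ[ℂ] (P.B → S.Mt) where
  toFun x := Sum.elim (fun l => ev (P.pr l y) (x.1 l)) x.2
  map_one' := by funext b; cases b <;> simp
  map_mul' x x' := by funext b; cases b <;> simp
  map_zero' := by funext b; cases b <;> simp
  map_add' x x' := by funext b; cases b <;> simp
  commutes' c := by funext b; cases b <;> simp [Algebra.algebraMap_eq_smul_one]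
  map_star' x := by funext b; cases b <;> simp [map_star]

@[simp] theorem blk_inl (y : P.next.Y) (x : P.D) (l : Fin (P.L + 1)) :
    P.blk y x (.inl l) = ev (P.pr l y) (x.1 l) := rfl

@[simp] theorem blk_inr (y : P.next.Y) (x : P.D) (b : P.Bc) : P.blk y x (.inr b) = x.2 b := rfl

/-- the general connecting map -/
def Ψ : P.D →⋆ₐ[ℂ] P.next.Al :=
  liftHom (fun y => (BD S.N P.B).comp (P.blk y))
    (fun x => by
      refine Continuous.matrix_blockDiagonal (continuous_pi fun b => ?_)
      cases b with
      | inl l => exact (continuous_ev (x.1 l)).comp (P.continuous_pr l)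
      | inr b => exact continuous_const)
    (fun x j y s t => by
      obtain ⟨s, b⟩ := s
      obtain ⟨t, b'⟩ := t
      simp only [StarAlgHom.comp_apply, BD_apply, blockDiagonal_apply]
      by_cases hb : b = b'
      · subst hb
        simp only [if_true]
        cases b with
        | inl l =>
          simp only [blk_inl, sg]
          cases j with
          | none => rw [pr_flp_none, sgnL_lab'_none, sgnL_lab'_none]; simp
          | some j =>
            obtain ⟨l', j⟩ := j
            by_cases hl : l = l'
            · subst hl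
              rw [pr_flp_same, ev_flp_apply, sgnL_lab'_same, sgnL_lab'_same]; rfl
            · rw [P.pr_flp_ne hl, P.sgnL_lab'_ne hl, P.sgnL_lab'_ne hl]; simp
        | inr b =>
          have : P.next.sg j (s, .inr b) = P.next.sg j (t, .inr b) := by
            cases b <;> rfl
          rw [this, sg_sq, one_mul]
          rfl
      · simp [hb])

theorem ev_Ψ (x : P.D) (y : P.next.Y) : ev y (P.Ψ x) = BD S.N P.B (P.blk y x) := rfl

/-- the points of evaluation -/
def pt : P.Bc → S.Y := Sum.elim (fun x => P.f x.1) fun _ => P.y0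

/-- the diagonal -/
def dia : S.Al →⋆ₐ[ℂ] P.D where
  toFun a := (fun _ => a, fun b => ev (P.pt b) a)
  map_one' := by ext <;> simp
  map_mul' a b := by ext <;> simp
  map_zero' := by ext <;> simp
  map_add' a b := by ext <;> simp
  commutes' c := by ext <;> simp [Algebra.algebraMap_eq_smul_one]
  map_star' a := by ext <;> simp [map_star]

theorem dia_apply (a : S.Al) : P.dia a = (fun _ => a, fun b => ev (P.pt b) a) := rfl

/-- the connecting map -/
def φ : S.Al →⋆ₐ[ℂ] P.next.Al := P.Ψ.comp P.dia

theorem φ_apply (a : S.Al) : P.φ a = P.Ψ (fun _ => a, fun b => ev (P.pt b) a) := rfl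

theorem norm_ev_pr_le (a : S.Al) (y : P.next.Y) : ‖ev (P.pr 0 y) a‖ ≤ ‖ev y (P.φ a)‖ := by
  rw [φ_apply, ev_Ψ, norm_BD]
  exact norm_le_pi_norm (P.blk y (fun _ => a, fun b => ev (P.pt b) a)) (.inl 0)

theorem φ_inj : Function.Injective P.φ := by
  rw [injective_iff_map_eq_zero]
  intro a ha
  refine ext_ev fun y => ?_
  obtain ⟨y', rfl⟩ := P.pr_surj 0 y
  have := P.norm_ev_pr_le a y'
  rw [ha, map_zero, norm_zero] at this
  rw [map_zero]
  exact norm_le_zero_iff.1 this

theorem φ_dg (v : S.N → ℂ) : P.φ (dg v) = dg (S := P.next) fun x => v x.1 := by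
  refine ext_ev fun y => ?_
  rw [φ_apply, ev_Ψ, BD_apply, ev_dg]
  have : P.blk y (fun _ => dg v, fun b => ev (P.pt b) (dg v)) = fun _ => diagonal v := by
    funext b; cases b <;> rfl
  rw [this, blockDiagonal_diagonal]

theorem φ_pp : P.φ S.pp = P.next.pp := P.φ_dg _

theorem φ_qq : P.φ S.qq = P.next.qq := P.φ_dg _

end Par

theorem card_prod_sub {N B : Type} [Fintype N] [Fintype B] (p : N × B → Prop) :
    Nat.card {x // p x} = ∑ b, Nat.card {s // p (s, b)} := by
  have e : {x // p x} ≃ Σ b, {s // p (s, b)} :=
    { toFun := fun x => ⟨x.1.2, x.1.1, x.2⟩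
      invFun := fun x => ⟨(x.2.1, x.1), x.2.2⟩
      left_inv := fun _ => rfl
      right_inv := fun _ => rfl }
  rw [Nat.card_congr e, Nat.card_sigma]

theorem card_sub_le {N : Type} [Fintype N] (p : N → Prop) :
    Nat.card {x // p x} ≤ Fintype.card N := by
  rw [← Nat.card_eq_fintype_card]
  exact Nat.card_le_card_of_injective _ Subtype.val_injective

theorem card_sub_congr {N : Type} {p q : N → Prop} (h : ∀ x, p x ↔ q x) :
    Nat.card {x // p x} = Nat.card {x // q x} := Nat.card_congr (Equiv.subtypeEquivRight h)

theorem card_sub_zero {N : Type} {p : N → Prop} (h : ∀ x, ¬ p x) : Nat.card {x // p x} = 0 := by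
  have : IsEmpty {x // p x} := ⟨fun x => h x.1 x.2⟩
  exact Nat.card_of_isEmpty

theorem Par.good {S : Stage} (P : Par S) (h : S.Good)
    (hL : Fintype.card (P.F × (S.N × S.Co)) * Fintype.card S.N ≤ P.L) : P.next.Good where
  hd j := by
    cases j with
    | none => exact Nat.le_add_left _ _
    | some x => exact h.hd x.2
  h1 j := by
    rw [card_prod_sub, Fintype.sum_sum_type, Fintype.sum_sum_type]
    cases j with
    | none =>
      rw [Finset.sum_eq_zero, Finset.sum_eq_zero (s := Finset.univ (α := P.F × (S.N × S.Co)))]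
      · have : ∑ b : Fin P.m, Nat.card {s // P.next.lab (s, .inr (.inr b)) = some none} ≤
            ∑ _b : Fin P.m, Fintype.card S.N := Finset.sum_le_sum fun b _ => card_sub_le _
        rw [Finset.sum_const, Finset.card_univ, Fintype.card_fin, smul_eq_mul] at this
        change _ ≤ 2 * (Fintype.card S.N * P.m) + 1
        rw [mul_comm (Fintype.card S.N)]
        omega
      · intro b _
        exact card_sub_zero fun s => by simp [Par.lab']
      · intro l _
        exact card_sub_zero fun s => by simp [Par.lab']
    | some x =>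
      obtain ⟨l, j⟩ := x
      rw [Finset.sum_eq_single l, Finset.sum_eq_zero (s := Finset.univ (α := P.F × (S.N × S.Co))),
        Finset.sum_eq_zero (s := Finset.univ (α := Fin P.m))]
      · rw [card_sub_congr (q := fun s => S.lab s = some j)]
        · exact h.h1 j
        · intro s; simp [Par.lab']
      · intro b _
        exact card_sub_zero fun s => by simp [Par.lab']
      · intro b _
        exact card_sub_zero fun s => by simp [Par.lab']
      · intro l' _ hl
        exact card_sub_zero fun s => by simp [Par.lab', hl]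
      · intro h'; exact absurd (Finset.mem_univ _) h'
  h0 := by
    have h0 := h.h0
    rw [card_prod_sub, card_prod_sub, Fintype.sum_sum_type, Fintype.sum_sum_type,
      Fintype.sum_sum_type (fun b : P.B =>
        Nat.card {s // P.next.o (s, b) = true ∧ P.next.lab (s, b) = none})]
    have e1 : ∀ (c : Bool) (l : Fin (P.L + 1)),
        Nat.card {s // P.next.o (s, .inl l) = c ∧ P.next.lab (s, .inl l) = none} =
        Nat.card {s // S.o s = c ∧ S.lab s = none} := fun c l =>
      card_sub_congr fun s => by simp [Par.lab']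
    have e2 : ∑ b : P.F × (S.N × S.Co), Nat.card {s // P.next.o (s, .inr (.inl b)) = false ∧
        P.next.lab (s, .inr (.inl b)) = none} ≤ ∑ _b : P.F × (S.N × S.Co), Fintype.card S.N :=
      Finset.sum_le_sum fun b _ => card_sub_le _
    have e3 : ∑ b : Fin P.m, Nat.card {s // P.next.o (s, .inr (.inr b)) = false ∧
        P.next.lab (s, .inr (.inr b)) = none} = 0 :=
      Finset.sum_eq_zero fun b _ => card_sub_zero fun s => by simp [Par.lab']
    simp only [e1, e3]
    simp only [Finset.sum_const, Finset.card_univ, Fintype.card_fin, smul_eq_mul] at e2 ⊢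
    have e4 := Nat.mul_le_mul_left (P.L + 1) (Nat.succ_le_of_lt h0)
    rw [Nat.mul_succ] at e4
    omega

end

end Pool.Agent.H95Z.Vil
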